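import Pool.Agent.Lib.MP_29a676_an.CThree.Poly

/-!
# The `2 × 2` core of the constant `c₃`
-/

namespace SpecVar.CThree

open Complex

/-- elimination of the phases -/
theorem det_le {w w' : ℝ} (hw : 0 ≤ w) (hw' : 0 ≤ w') (z1 z2 z3 z4 : ℂ)
    (hz : z1 + z2 = z3 + z4) :
    normSq (w * (z1 * z2) + w' * (z3 * z4)) ≤
      D2 w w' (normSq z1) (normSq z2) (normSq z3) (normSq z4) := by
  obtain ⟨a1, b1⟩ := z1
  obtain ⟨a2, b2⟩ := z2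
  obtain ⟨a3, b3⟩ := z3
  obtain ⟨a4, b4⟩ := z4
  have h1 : a4 = a1 + a2 - a3 := by
    have := congrArg Complex.re hz
    simp only [add_re] at this
    linarith
  have h2 : b4 = b1 + b2 - b3 := by
    have := congrArg Complex.im hz
    simp only [add_im] at this
    linarith
  subst h1 h2
  have h3 : 0 ≤ w * w' * ((b1 - b2) * (a3 - (a1 + a2 - a3)) -
      (a1 - a2) * (b3 - (b1 + b2 - b3))) ^ 2 / 4 := by positivity
  rw [← sub_nonneg]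
  refine h3.trans_eq ?_
  simp only [normSq_apply, add_re, add_im, mul_re, mul_im, ofReal_re, ofReal_im, D2]
  ring

/-- the product bound dominates when the pairs are nested -/
theorem D2_le {w w' x1 x2 x3 x4 : ℝ} (hw : 0 ≤ w) (hw' : 0 ≤ w') (h1 : 1 ≤ x1) (h2 : 1 ≤ x2)
    (h3 : 1 ≤ x3) (h : x1 + x2 + x3 ≤ x4 + 2) :
    D2 w w' (x1 ^ 2) (x2 ^ 2) (x3 ^ 2) (x4 ^ 2) ≤ (w * (x1 * x2) + w' * (x3 * x4)) ^ 2 := by
  have e : (w * (x1 * x2) + w' * (x3 * x4)) ^ 2 - D2 w w' (x1 ^ 2) (x2 ^ 2) (x3 ^ 2) (x4 ^ 2) =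
      w * w' / 4 * ((((x3 + x4) - (x1 + x2)) * ((x3 + x4) + (x1 + x2))) *
        (((x4 - x3) - (x1 - x2)) * ((x4 - x3) + (x1 - x2)))) := by
    rw [D2]; ring
  have a1 : 0 ≤ (x3 + x4) - (x1 + x2) := by linarith
  have a2 : 0 ≤ (x3 + x4) + (x1 + x2) := by linarith
  have a3 : 0 ≤ (x4 - x3) - (x1 - x2) := by linarith
  have a4 : 0 ≤ (x4 - x3) + (x1 - x2) := by linarith
  rw [← sub_nonneg, e]
  positivity

/-- A real `2 × 2` matrix with `pᵀRq ≥ 1` has a singular value `≥ 1`. -/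
theorem fro {p1 p2 q1 q2 a b c d T : ℝ} (hp : p1 ^ 2 + p2 ^ 2 = 1) (hq : q1 ^ 2 + q2 ^ 2 = 1)
    (h : 1 ≤ p1 * (a * q1 + b * q2) + p2 * (c * q1 + d * q2)) (hT : T < 1)
    (hF : a ^ 2 + b ^ 2 + c ^ 2 + d ^ 2 ≤ 2 * T) :
    T ^ 2 - T * (a ^ 2 + b ^ 2 + c ^ 2 + d ^ 2) + (a * d - b * c) ^ 2 ≤ 0 := by
  -- `u = ‖Rᵀp‖²`, `v = ‖Rᵀp^⊥‖²`
  set u := (p1 * a + p2 * c) ^ 2 + (p1 * b + p2 * d) ^ 2 with hu
  set v := (p1 * c - p2 * a) ^ 2 + (p1 * d - p2 * b) ^ 2 with hv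
  have huv : u + v = a ^ 2 + b ^ 2 + c ^ 2 + d ^ 2 := by
    have : u + v = (p1 ^ 2 + p2 ^ 2) * (a ^ 2 + b ^ 2 + c ^ 2 + d ^ 2) := by rw [hu, hv]; ring
    rw [this, hp, one_mul]
  have hdet : (a * d - b * c) ^ 2 = u * v - ((p1 * a + p2 * c) * (p1 * c - p2 * a) +
      (p1 * b + p2 * d) * (p1 * d - p2 * b)) ^ 2 := by
    have : u * v - ((p1 * a + p2 * c) * (p1 * c - p2 * a) +
      (p1 * b + p2 * d) * (p1 * d - p2 * b)) ^ 2 = (p1 ^ 2 + p2 ^ 2) ^ 2 * (a * d - b * c) ^ 2 := by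
      rw [hu, hv]; ring
    rw [this, hp]; ring
  have hu1 : 1 ≤ u := by
    have h1 : (p1 * (a * q1 + b * q2) + p2 * (c * q1 + d * q2)) ^ 2 ≤
        u * (q1 ^ 2 + q2 ^ 2) := by
      have : u * (q1 ^ 2 + q2 ^ 2) - (p1 * (a * q1 + b * q2) + p2 * (c * q1 + d * q2)) ^ 2 =
        ((p1 * a + p2 * c) * q2 - (p1 * b + p2 * d) * q1) ^ 2 := by rw [hu]; ring
      nlinarith [sq_nonneg ((p1 * a + p2 * c) * q2 - (p1 * b + p2 * d) * q1)]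
    rw [hq, mul_one] at h1
    nlinarith
  rw [hdet, ← huv]
  rw [← huv] at hF
  have h2 : 0 ≤ (u - T) * (T - v) := mul_nonneg (by linarith) (by linarith)
  nlinarith [sq_nonneg ((p1 * a + p2 * c) * (p1 * c - p2 * a) +
      (p1 * b + p2 * d) * (p1 * d - p2 * b))]

/-- the real contraction `pqᵀ + k p^⊥ (q^⊥)ᵀ` weighted by `x ≥ 1` -/
theorem one_le_pRq {p1 p2 q1 q2 k x1 x2 x3 x4 : ℝ} (hp : p1 ^ 2 + p2 ^ 2 = 1)
    (hq : q1 ^ 2 + q2 ^ 2 = 1) (hp1 : 0 ≤ p1) (hp2 : 0 ≤ p2) (hq1 : 0 ≤ q1) (hq2 : 0 ≤ q2)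
    (hk1 : k ≤ 1) (hε : 0 ≤ k * (p1 * q2) - p2 * q1)
    (h1 : 1 ≤ x1) (h2 : 1 ≤ x2) (h3 : 1 ≤ x3) (h : x4 + 2 ≤ x1 + x2 + x3) :
    1 ≤ p1 * ((p1 * q1 + k * (p2 * q2)) * x1 * q1 + (p1 * q2 - k * (p2 * q1)) * x3 * q2) +
      p2 * (-(k * (p1 * q2) - p2 * q1) * x4 * q1 + (p2 * q2 + k * (p1 * q1)) * x2 * q2) := by
  set ε := k * (p1 * q2) - p2 * q1 with hεd
  set W := p2 * q1 * ε with hW
  have hW0 : 0 ≤ W := by positivity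
  have e1 : p1 * q1 * (p1 * q1 + k * (p2 * q2)) - W = q1 ^ 2 := by
    have : p1 * q1 * (p1 * q1 + k * (p2 * q2)) - W = (p1 ^ 2 + p2 ^ 2) * q1 ^ 2 := by
      rw [hW, hεd]; ring
    rw [this, hp, one_mul]
  have e2 : p2 * q2 * (p2 * q2 + k * (p1 * q1)) - W = p2 ^ 2 := by
    have : p2 * q2 * (p2 * q2 + k * (p1 * q1)) - W = p2 ^ 2 * (q1 ^ 2 + q2 ^ 2) := by
      rw [hW, hεd]; ring
    rw [this, hq, mul_one]
  have e3 : 0 ≤ p1 * q2 * (p1 * q2 - k * (p2 * q1)) - W := by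
    have : p1 * q2 * (p1 * q2 - k * (p2 * q1)) - W =
      (p1 * q2 - p2 * q1) ^ 2 + 2 * (1 - k) * (p1 * q2 * (p2 * q1)) := by
      rw [hW, hεd]; ring
    rw [this]
    have : 0 ≤ 1 - k := by linarith
    positivity
  have hsum : p1 * q1 * (p1 * q1 + k * (p2 * q2)) + p2 * q2 * (p2 * q2 + k * (p1 * q1)) +
      p1 * q2 * (p1 * q2 - k * (p2 * q1)) - W = 1 := by
    have : p1 * q1 * (p1 * q1 + k * (p2 * q2)) + p2 * q2 * (p2 * q2 + k * (p1 * q1)) +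
      p1 * q2 * (p1 * q2 - k * (p2 * q1)) - W = (p1 ^ 2 + p2 ^ 2) * (q1 ^ 2 + q2 ^ 2) := by
      rw [hW, hεd]; ring
    rw [this, hp, hq, one_mul]
  have e1' : 0 ≤ p1 * q1 * (p1 * q1 + k * (p2 * q2)) - W := by rw [e1]; positivity
  have e2' : 0 ≤ p2 * q2 * (p2 * q2 + k * (p1 * q1)) - W := by rw [e2]; positivity
  have g1 := mul_nonneg e1' (by linarith : 0 ≤ x1 - 1)
  have g2 := mul_nonneg e2' (by linarith : 0 ≤ x2 - 1)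
  have g3 := mul_nonneg e3 (by linarith : 0 ≤ x3 - 1)
  have g4 := mul_nonneg hW0 (by linarith : 0 ≤ x1 + x2 + x3 - x4 - 2)
  have : p1 * ((p1 * q1 + k * (p2 * q2)) * x1 * q1 + (p1 * q2 - k * (p2 * q1)) * x3 * q2) +
      p2 * (-ε * x4 * q1 + (p2 * q2 + k * (p1 * q1)) * x2 * q2) =
      p1 * q1 * (p1 * q1 + k * (p2 * q2)) * x1 + p2 * q2 * (p2 * q2 + k * (p1 * q1)) * x2 +
      p1 * q2 * (p1 * q2 - k * (p2 * q1)) * x3 - W * x4 := by rw [hW]; ring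
  rw [this]
  linarith

/-- The real core: no weights `x ≥ 1` are compatible with `τ² < 27/28`. -/
theorem core_real {p1 p2 q1 q2 k x1 x2 x3 x4 α β γ ε F : ℝ} (hp : p1 ^ 2 + p2 ^ 2 = 1)
    (hq : q1 ^ 2 + q2 ^ 2 = 1) (hp1 : 0 ≤ p1) (hp2 : 0 ≤ p2) (hq1 : 0 ≤ q1) (hq2 : 0 ≤ q2)
    (hk0 : 0 ≤ k) (hk1 : k ≤ 1) (hε : 0 < ε)
    (hαd : α = p1 * q1 + k * (p2 * q2)) (hβd : β = p2 * q2 + k * (p1 * q1))
    (hγd : γ = p1 * q2 - k * (p2 * q1)) (hεd : ε = k * (p1 * q2) - p2 * q1)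
    (h1 : 1 ≤ x1) (h2 : 1 ≤ x2) (h3 : 1 ≤ x3)
    (hFd : F = α ^ 2 * x1 ^ 2 + β ^ 2 * x2 ^ 2 + γ ^ 2 * x3 ^ 2 + ε ^ 2 * x4 ^ 2)
    (hF : F ≤ 27 / 14)
    (hD : 0 < (27 / 28) ^ 2 - 27 / 28 * F + D2 (α * β) (γ * ε) (x1 ^ 2) (x2 ^ 2) (x3 ^ 2) (x4 ^ 2))
    (hP : 0 < (27 / 28) ^ 2 - 27 / 28 * F + (α * β * (x1 * x2) + γ * ε * (x3 * x4)) ^ 2) :
    False := by
  have hα : 0 ≤ α := by rw [hαd]; positivity
  have hβ : 0 ≤ β := by rw [hβd]; positivity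
  have hpq : 0 ≤ p1 * q2 + p2 * q1 := by positivity
  have hpq1 : p1 * q2 + p2 * q1 ≤ 1 := by nlinarith [sq_nonneg (p1 - q2), sq_nonneg (p2 - q1)]
  have hγε : γ - ε = (1 - k) * (p1 * q2 + p2 * q1) := by rw [hγd, hεd]; ring
  have hγ1 : ε ≤ γ := by
    have : 0 ≤ (1 - k) * (p1 * q2 + p2 * q1) := mul_nonneg (by linarith) hpq
    linarith
  have hγ2 : γ ≤ ε + 1 - k := by
    have : (1 - k) * (p1 * q2 + p2 * q1) ≤ (1 - k) * 1 :=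
      mul_le_mul_of_nonneg_left hpq1 (by linarith)
    linarith
  have hγ : 0 ≤ γ := hε.le.trans hγ1
  have hεk : ε ≤ k := by
    have h5 : p1 * q2 ≤ 1 := by
      have : 0 ≤ p2 * q1 := by positivity
      linarith
    have h6 : 0 ≤ p2 * q1 := by positivity
    rw [hεd]
    nlinarith
  have hdet : α * β + γ * ε = k := by
    have : α * β + γ * ε = k * ((p1 ^ 2 + p2 ^ 2) * (q1 ^ 2 + q2 ^ 2)) := by
      rw [hαd, hβd, hγd, hεd]; ring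
    rw [this, hp, hq]; ring
  have hfro : α ^ 2 + β ^ 2 + γ ^ 2 + ε ^ 2 = 1 + k ^ 2 := by
    have : α ^ 2 + β ^ 2 + γ ^ 2 + ε ^ 2 =
        (1 + k ^ 2) * ((p1 ^ 2 + p2 ^ 2) * (q1 ^ 2 + q2 ^ 2)) := by
      rw [hαd, hβd, hγd, hεd]; ring
    rw [this, hp, hq]; ring
  -- the consequence of `fro` for a general point
  have key : ∀ u1 u2 u3 u4 : ℝ, 1 ≤ u1 → 1 ≤ u2 → 1 ≤ u3 → u4 + 2 ≤ u1 + u2 + u3 →
      α ^ 2 * u1 ^ 2 + β ^ 2 * u2 ^ 2 + γ ^ 2 * u3 ^ 2 + ε ^ 2 * u4 ^ 2 ≤ 27 / 14 →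
      (27 / 28) ^ 2 - 27 / 28 * (α ^ 2 * u1 ^ 2 + β ^ 2 * u2 ^ 2 + γ ^ 2 * u3 ^ 2 +
        ε ^ 2 * u4 ^ 2) + (α * β * (u1 * u2) + γ * ε * (u3 * u4)) ^ 2 ≤ 0 := by
    intro u1 u2 u3 u4 g1 g2 g3 g h
    have h5 := one_le_pRq (x4 := u4) hp hq hp1 hp2 hq1 hq2 hk1 (by rw [← hεd]; exact hε.le)
      g1 g2 g3 g
    rw [← hαd, ← hβd, ← hγd, ← hεd] at h5
    have h6 := fro (a := α * u1) (b := γ * u3) (c := -ε * u4) (d := β * u2) (T := 27 / 28) hp hq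
      h5 (by norm_num) (by
        have : (α * u1) ^ 2 + (γ * u3) ^ 2 + (-ε * u4) ^ 2 + (β * u2) ^ 2 =
          α ^ 2 * u1 ^ 2 + β ^ 2 * u2 ^ 2 + γ ^ 2 * u3 ^ 2 + ε ^ 2 * u4 ^ 2 := by ring
        rw [this]; linarith)
    have e1 : (α * u1) ^ 2 + (γ * u3) ^ 2 + (-ε * u4) ^ 2 + (β * u2) ^ 2 =
          α ^ 2 * u1 ^ 2 + β ^ 2 * u2 ^ 2 + γ ^ 2 * u3 ^ 2 + ε ^ 2 * u4 ^ 2 := by ring
    have e2 : (α * u1 * (β * u2) - γ * u3 * (-ε * u4)) =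
        (α * β * (u1 * u2) + γ * ε * (u3 * u4)) := by ring
    rw [e1, e2] at h6
    exact h6
  -- (N1)
  have hN1 : x1 + x2 + x3 < x4 + 2 := by
    by_contra h
    push Not at h
    have := key x1 x2 x3 x4 h1 h2 h3 h (by rw [← hFd]; exact hF)
    rw [← hFd] at this
    linarith
  -- (N2)
  set ρ1 := x1 ^ 2 - 1 with hρ1
  set ρ2 := x2 ^ 2 - 1 with hρ2
  set ρ3 := x3 ^ 2 - 1 with hρ3
  have r1 : 0 ≤ ρ1 := by nlinarith
  have r2 : 0 ≤ ρ2 := by nlinarith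
  have r3 : 0 ≤ ρ3 := by nlinarith
  obtain ⟨D, hDd⟩ : ∃ D, D = (x4 ^ 2 - 1) - ρ1 - ρ2 - ρ3 := ⟨_, rfl⟩
  have hD0 : 0 ≤ D := by
    have g1 := mul_nonneg (by linarith : 0 ≤ x1 - 1) (by linarith : 0 ≤ x2 - 1)
    have g2 := mul_nonneg (by linarith : 0 ≤ x1 - 1) (by linarith : 0 ≤ x3 - 1)
    have g3 := mul_nonneg (by linarith : 0 ≤ x2 - 1) (by linarith : 0 ≤ x3 - 1)
    have g4 : (x1 + x2 + x3 - 2) ^ 2 ≤ x4 ^ 2 := by
      apply pow_le_pow_left₀ (by linarith) (by linarith)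
    rw [hDd, hρ1, hρ2, hρ3]
    nlinarith
  -- the path
  set Ft : ℝ → ℝ := fun t => α ^ 2 * (1 + t * ρ1) + β ^ 2 * (1 + t * ρ2) + γ ^ 2 * (1 + t * ρ3) +
    ε ^ 2 * (1 + D + t * (ρ1 + ρ2 + ρ3)) with hFt
  set Gt : ℝ → ℝ := fun t => 27 / 28 * (Ft t - 27 / 28) -
    D2 (α * β) (γ * ε) (1 + t * ρ1) (1 + t * ρ2) (1 + t * ρ3) (1 + D + t * (ρ1 + ρ2 + ρ3)) with hGt
  have hy1 : 1 + 1 * ρ1 = x1 ^ 2 := by rw [hρ1]; ring
  have hy2 : 1 + 1 * ρ2 = x2 ^ 2 := by rw [hρ2]; ring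
  have hy3 : 1 + 1 * ρ3 = x3 ^ 2 := by rw [hρ3]; ring
  have hy4 : 1 + D + 1 * (ρ1 + ρ2 + ρ3) = x4 ^ 2 := by rw [hDd]; ring
  have hF1 : Ft 1 = F := by rw [hFt, hFd]; simp only; rw [hy1, hy2, hy3, hy4]
  have hG1 : Gt 1 < 0 := by
    have : Gt 1 = -((27 / 28) ^ 2 - 27 / 28 * F +
        D2 (α * β) (γ * ε) (x1 ^ 2) (x2 ^ 2) (x3 ^ 2) (x4 ^ 2)) := by
      rw [hGt]; simp only; rw [hF1, hy1, hy2, hy3, hy4]; ring
    rw [this]; linarith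
  set s := α ^ 2 * ρ1 + β ^ 2 * ρ2 + γ ^ 2 * ρ3 + ε ^ 2 * (ρ1 + ρ2 + ρ3) with hs
  have hFs : ∀ t, Ft t = F + (t - 1) * s := by
    intro t
    rw [← hF1, hFt, hs]; ring
  have hs0 : 0 ≤ s := by rw [hs]; positivity
  have hF0 : Ft 0 = 1 + k ^ 2 + ε ^ 2 * D := by
    rw [← hfro, hFt]; ring
  have hG0 : 0 ≤ Gt 0 := by
    have h5 := base (k := k) (γ := γ) (ε := ε) (D := D) hε.le hεk hγ1 hγ2 hD0 (by
      rw [← hF0, hFs]; linarith)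
    have h6 : k - γ * ε = α * β := by linarith
    rw [h6, ← hF0] at h5
    have h7 : Gt 0 = 27 / 28 * (Ft 0 - 27 / 28) - D2 (α * β) (γ * ε) 1 1 1 (1 + D) := by
      rw [hGt]; simp
    rw [h7]; exact h5
  have hw : 0 ≤ α * β := by positivity
  have hw' : 0 ≤ γ * ε := by positivity
  have hQ : 0 ≤ (α * β + γ * ε) * (α * β * (ρ1 * ρ2) + γ * ε * (ρ3 * (ρ1 + ρ2 + ρ3))) -
      α * β * (γ * ε) * ρ3 ^ 2 := by
    have : (α * β + γ * ε) * (α * β * (ρ1 * ρ2) + γ * ε * (ρ3 * (ρ1 + ρ2 + ρ3))) -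
      α * β * (γ * ε) * ρ3 ^ 2 = (α * β + γ * ε) * (α * β * (ρ1 * ρ2) +
        γ * ε * (ρ3 * (ρ1 + ρ2))) + (γ * ε) ^ 2 * ρ3 ^ 2 := by ring
    rw [this]; positivity
  have hconc : ∀ t, 1 ≤ t → Gt t < 0 := by
    intro t ht
    have h5 : t * Gt 1 - Gt t - (t - 1) * Gt 0 = t * (t - 1) *
        ((α * β + γ * ε) * (α * β * (ρ1 * ρ2) + γ * ε * (ρ3 * (ρ1 + ρ2 + ρ3))) -
      α * β * (γ * ε) * ρ3 ^ 2) := by
      simp only [hGt, hFt, D2]; ring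
    have h6 : 0 ≤ t * (t - 1) *
        ((α * β + γ * ε) * (α * β * (ρ1 * ρ2) + γ * ε * (ρ3 * (ρ1 + ρ2 + ρ3))) -
      α * β * (γ * ε) * ρ3 ^ 2) := mul_nonneg (mul_nonneg (by linarith) (by linarith)) hQ
    have h7 : 0 ≤ (t - 1) * Gt 0 := mul_nonneg (by linarith) hG0
    have h8 : t * Gt 1 < 0 := mul_neg_of_pos_of_neg (by linarith) hG1
    linarith
  -- the point where `F = 2T`
  have hρ : 0 < ρ1 + ρ2 + ρ3 := by
    by_contra h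
    push Not at h
    have a1 : ρ1 = 0 := by linarith
    have a2 : ρ2 = 0 := by linarith
    have a3 : ρ3 = 0 := by linarith
    have : Gt 1 = Gt 0 := by simp only [hGt, hFt, a1, a2, a3]; simp
    linarith
  have hs1 : 0 < s := by
    have : ε ^ 2 * (ρ1 + ρ2 + ρ3) ≤ s := by
      have : 0 ≤ α ^ 2 * ρ1 + β ^ 2 * ρ2 + γ ^ 2 * ρ3 := by positivity
      rw [hs]; linarith
    have : 0 < ε ^ 2 * (ρ1 + ρ2 + ρ3) := by positivity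
    linarith
  obtain ⟨tF, htF⟩ : ∃ tF, tF = 1 + (27 / 14 - F) / s := ⟨_, rfl⟩
  have htF1 : 1 ≤ tF := by
    have : 0 ≤ (27 / 14 - F) / s := div_nonneg (by linarith) hs1.le
    linarith
  have hFtF : Ft tF = 27 / 14 := by
    rw [hFs, htF]; field_simp; ring
  set h : ℝ → ℝ := fun t => Real.sqrt (1 + D + t * (ρ1 + ρ2 + ρ3)) + 2 - Real.sqrt (1 + t * ρ1) -
    Real.sqrt (1 + t * ρ2) - Real.sqrt (1 + t * ρ3) with hh
  have hcont : Continuous h := by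
    rw [hh]
    fun_prop
  have hh1 : 0 < h 1 := by
    rw [hh]; simp only; rw [hy1, hy2, hy3, hy4, Real.sqrt_sq (by linarith),
      Real.sqrt_sq (by linarith), Real.sqrt_sq (by linarith), Real.sqrt_sq (by linarith)]
    linarith
  -- values at a point of the path
  have hval : ∀ t, 1 ≤ t → Ft t ≤ 27 / 14 → 0 ≤ h t → (h t = 0 ∨ Ft t = 27 / 14) → False := by
    intro t ht hFt' hht hor
    set u1 := Real.sqrt (1 + t * ρ1) with hu1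
    set u2 := Real.sqrt (1 + t * ρ2) with hu2
    set u3 := Real.sqrt (1 + t * ρ3) with hu3
    set u4 := Real.sqrt (1 + D + t * (ρ1 + ρ2 + ρ3)) with hu4
    have b1 : 0 ≤ t * ρ1 := by positivity
    have b2 : 0 ≤ t * ρ2 := by positivity
    have b3 : 0 ≤ t * ρ3 := by positivity
    have s1 : u1 ^ 2 = 1 + t * ρ1 := Real.sq_sqrt (by linarith)
    have s2 : u2 ^ 2 = 1 + t * ρ2 := Real.sq_sqrt (by linarith)
    have s3 : u3 ^ 2 = 1 + t * ρ3 := Real.sq_sqrt (by linarith)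
    have b4 : 0 ≤ t * (ρ1 + ρ2 + ρ3) := by positivity
    have s4 : u4 ^ 2 = 1 + D + t * (ρ1 + ρ2 + ρ3) := Real.sq_sqrt (by linarith)
    have c1 : 1 ≤ u1 := Real.one_le_sqrt.mpr (by linarith)
    have c2 : 1 ≤ u2 := Real.one_le_sqrt.mpr (by linarith)
    have c3 : 1 ≤ u3 := Real.one_le_sqrt.mpr (by linarith)
    have hht' : u1 + u2 + u3 ≤ u4 + 2 := by
      have : h t = u4 + 2 - u1 - u2 - u3 := rfl
      linarith
    have hd := D2_le hw hw' c1 c2 c3 hht'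
    have hFe : Ft t = α ^ 2 * u1 ^ 2 + β ^ 2 * u2 ^ 2 + γ ^ 2 * u3 ^ 2 + ε ^ 2 * u4 ^ 2 := by
      rw [s1, s2, s3, s4]
    have hGe : Gt t = 27 / 28 * (Ft t - 27 / 28) -
        D2 (α * β) (γ * ε) (u1 ^ 2) (u2 ^ 2) (u3 ^ 2) (u4 ^ 2) := by
      rw [s1, s2, s3, s4]
    have hG := hconc t ht
    rcases hor with h0 | h0
    · have h5 := key u1 u2 u3 u4 c1 c2 c3 (by
        have : h t = u4 + 2 - u1 - u2 - u3 := rfl
        linarith) (by rw [← hFe]; exact hFt')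
      rw [← hFe] at h5
      rw [hGe] at hG
      linarith
    · have h5 : (α * β * (u1 * u2) + γ * ε * (u3 * u4)) ≤ 27 / 28 := by
        have e1 : (α * u1 - β * u2) ^ 2 =
          α ^ 2 * u1 ^ 2 + β ^ 2 * u2 ^ 2 - 2 * (α * β * (u1 * u2)) := by ring
        have e2 : (γ * u3 - ε * u4) ^ 2 =
          γ ^ 2 * u3 ^ 2 + ε ^ 2 * u4 ^ 2 - 2 * (γ * ε * (u3 * u4)) := by ring
        have e3 := sq_nonneg (α * u1 - β * u2)
        have e4 := sq_nonneg (γ * u3 - ε * u4)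
        rw [e1] at e3
        rw [e2] at e4
        linarith
      have c4 : 0 ≤ u4 := Real.sqrt_nonneg _
      have h6 : 0 ≤ (α * β * (u1 * u2) + γ * ε * (u3 * u4)) := by positivity
      have h7 : (α * β * (u1 * u2) + γ * ε * (u3 * u4)) ^ 2 ≤ (27 / 28) ^ 2 :=
        pow_le_pow_left₀ h6 h5 2
      rw [hGe, h0] at hG
      linarith
  by_cases hend : 0 ≤ h tF
  · exact hval tF htF1 hFtF.le hend (Or.inr hFtF)
  · push Not at hend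
    obtain ⟨t, ⟨ht1, ht2⟩, ht0⟩ := intermediate_value_Icc' htF1 hcont.continuousOn
      (show (0 : ℝ) ∈ Set.Icc (h tF) (h 1) from ⟨hend.le, hh1.le⟩)
    refine hval t ht1 ?_ ht0.ge (Or.inl ht0)
    rw [hFs]
    have h5 : Ft tF = 27 / 14 := hFtF
    rw [hFs] at h5
    have h6 : (t - 1) * s ≤ (tF - 1) * s := mul_le_mul_of_nonneg_right (by linarith) hs0
    linarith

end SpecVar.CThree
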