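import Pool.Agent.Lib.MP_29a676_an.CThree.Core

/-!
# The complex `2 × 2` core of the constant `c₃`
-/

namespace SpecVar.CThree

open Complex

theorem core_neg {p1 p2 q1 q2 k τ : ℝ} {z11 z12 z21 z22 : ℂ} (hp : p1 ^ 2 + p2 ^ 2 = 1)
    (hq : q1 ^ 2 + q2 ^ 2 = 1) (hp1 : 0 ≤ p1) (hp2 : 0 ≤ p2) (hq1 : 0 ≤ q1) (hq2 : 0 ≤ q2)
    (hk0 : 0 ≤ k) (hk1 : k ≤ 1) (hz : z11 + z22 = z12 + z21)
    (h11 : 1 ≤ ‖z11‖) (h12 : 1 ≤ ‖z12‖) (h22 : 1 ≤ ‖z22‖)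
    (hF : (p1 * q1 + k * (p2 * q2)) ^ 2 * ‖z11‖ ^ 2 + (p1 * q2 - k * (p2 * q1)) ^ 2 * ‖z12‖ ^ 2 +
      (p2 * q1 - k * (p1 * q2)) ^ 2 * ‖z21‖ ^ 2 + (p2 * q2 + k * (p1 * q1)) ^ 2 * ‖z22‖ ^ 2 ≤
        2 * τ)
    (hdet : 0 ≤ τ ^ 2 - τ * ((p1 * q1 + k * (p2 * q2)) ^ 2 * ‖z11‖ ^ 2 +
      (p1 * q2 - k * (p2 * q1)) ^ 2 * ‖z12‖ ^ 2 +
      (p2 * q1 - k * (p1 * q2)) ^ 2 * ‖z21‖ ^ 2 + (p2 * q2 + k * (p1 * q1)) ^ 2 * ‖z22‖ ^ 2) +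
      ‖(((p1 * q1 + k * (p2 * q2)) * (p2 * q2 + k * (p1 * q1)) : ℝ) : ℂ) * (z11 * z22) -
        (((p1 * q2 - k * (p2 * q1)) * (p2 * q1 - k * (p1 * q2)) : ℝ) : ℂ) * (z12 * z21)‖ ^ 2)
    (hneg : p2 * q1 - k * (p1 * q2) < 0) : 27 / 28 ≤ τ := by
  by_contra hτ
  push Not at hτ
  obtain ⟨α, hα⟩ : ∃ α, α = p1 * q1 + k * (p2 * q2) := ⟨_, rfl⟩
  obtain ⟨β, hβ⟩ : ∃ β, β = p2 * q2 + k * (p1 * q1) := ⟨_, rfl⟩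
  obtain ⟨γ, hγ⟩ : ∃ γ, γ = p1 * q2 - k * (p2 * q1) := ⟨_, rfl⟩
  obtain ⟨ε, hε⟩ : ∃ ε, ε = k * (p1 * q2) - p2 * q1 := ⟨_, rfl⟩
  have hε' : p2 * q1 - k * (p1 * q2) = -ε := by rw [hε]; ring
  have hε0 : 0 < ε := by linarith
  rw [hε', ← hα, ← hβ, ← hγ] at hF hdet
  have hα0 : 0 ≤ α := by rw [hα]; positivity
  have hβ0 : 0 ≤ β := by rw [hβ]; positivity
  have hγ0 : 0 ≤ γ := by
    have h : 0 ≤ (1 - k) * (p1 * q2 + p2 * q1) := mul_nonneg (by linarith) (by positivity)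
    nlinarith
  obtain ⟨F, hFd⟩ : ∃ F, F = α ^ 2 * ‖z11‖ ^ 2 + β ^ 2 * ‖z22‖ ^ 2 + γ ^ 2 * ‖z12‖ ^ 2 +
    ε ^ 2 * ‖z21‖ ^ 2 := ⟨_, rfl⟩
  have hFe : α ^ 2 * ‖z11‖ ^ 2 + γ ^ 2 * ‖z12‖ ^ 2 + (-ε) ^ 2 * ‖z21‖ ^ 2 + β ^ 2 * ‖z22‖ ^ 2 =
      F := by rw [hFd]; ring
  rw [hFe] at hF hdet
  have hdete : (((α * β : ℝ) : ℂ) * (z11 * z22) - ((γ * -ε : ℝ) : ℂ) * (z12 * z21)) =
      ((α * β : ℝ) : ℂ) * (z11 * z22) + ((γ * ε : ℝ) : ℂ) * (z12 * z21) := by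
    push_cast; ring
  rw [hdete] at hdet
  set X := ‖((α * β : ℝ) : ℂ) * (z11 * z22) + ((γ * ε : ℝ) : ℂ) * (z12 * z21)‖ with hX
  have hpos : 0 < (27 / 28) ^ 2 - 27 / 28 * F + X ^ 2 := by
    have h1 : 0 < (27 / 28 - τ) * (27 / 28 + τ - F) := mul_pos (by linarith) (by linarith)
    nlinarith
  have hw : 0 ≤ α * β := by positivity
  have hw' : 0 ≤ γ * ε := by positivity
  refine core_real (x1 := ‖z11‖) (x2 := ‖z22‖) (x3 := ‖z12‖) (x4 := ‖z21‖) hp hq hp1 hp2 hq1 hq2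
    hk0 hk1 hε0 hα hβ hγ hε h11 h22 h12 hFd (by linarith) ?_ ?_
  · have h1 := det_le hw hw' z11 z22 z12 z21 hz
    rw [Complex.normSq_eq_norm_sq, Complex.normSq_eq_norm_sq, Complex.normSq_eq_norm_sq,
      Complex.normSq_eq_norm_sq, Complex.normSq_eq_norm_sq, ← hX] at h1
    linarith
  · have h1 : X ≤ α * β * (‖z11‖ * ‖z22‖) + γ * ε * (‖z12‖ * ‖z21‖) := by
      rw [hX]
      refine (norm_add_le _ _).trans_eq ?_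
      rw [norm_mul, norm_mul, norm_mul, norm_mul, Complex.norm_real, Complex.norm_real,
        Real.norm_eq_abs, Real.norm_eq_abs, abs_of_nonneg hw, abs_of_nonneg hw']
    have h2 : X ^ 2 ≤ (α * β * (‖z11‖ * ‖z22‖) + γ * ε * (‖z12‖ * ‖z21‖)) ^ 2 :=
      pow_le_pow_left₀ (norm_nonneg _) h1 2
    linarith

theorem core_pos {p1 p2 q1 q2 k τ : ℝ} {z11 z12 z21 z22 : ℂ} (hp : p1 ^ 2 + p2 ^ 2 = 1)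
    (hq : q1 ^ 2 + q2 ^ 2 = 1) (hp1 : 0 ≤ p1) (hp2 : 0 ≤ p2) (hq1 : 0 ≤ q1) (hq2 : 0 ≤ q2)
    (hk0 : 0 ≤ k) (hk1 : k ≤ 1) (hz : z11 + z22 = z12 + z21)
    (h11 : 1 ≤ ‖z11‖) (h12 : 1 ≤ ‖z12‖) (h21 : 1 ≤ ‖z21‖) (h22 : 1 ≤ ‖z22‖)
    (hF : (p1 * q1 + k * (p2 * q2)) ^ 2 * ‖z11‖ ^ 2 + (p1 * q2 - k * (p2 * q1)) ^ 2 * ‖z12‖ ^ 2 +
      (p2 * q1 - k * (p1 * q2)) ^ 2 * ‖z21‖ ^ 2 + (p2 * q2 + k * (p1 * q1)) ^ 2 * ‖z22‖ ^ 2 ≤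
        2 * τ)
    (hdet : 0 ≤ τ ^ 2 - τ * ((p1 * q1 + k * (p2 * q2)) ^ 2 * ‖z11‖ ^ 2 +
      (p1 * q2 - k * (p2 * q1)) ^ 2 * ‖z12‖ ^ 2 +
      (p2 * q1 - k * (p1 * q2)) ^ 2 * ‖z21‖ ^ 2 + (p2 * q2 + k * (p1 * q1)) ^ 2 * ‖z22‖ ^ 2) +
      ‖(((p1 * q1 + k * (p2 * q2)) * (p2 * q2 + k * (p1 * q1)) : ℝ) : ℂ) * (z11 * z22) -
        (((p1 * q2 - k * (p2 * q1)) * (p2 * q1 - k * (p1 * q2)) : ℝ) : ℂ) * (z12 * z21)‖ ^ 2)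
    (hX : p1 * q1 * (p1 * q1 + k * (p2 * q2)) * ‖z11‖ ^ 2 +
      p1 * q2 * (p1 * q2 - k * (p2 * q1)) * ‖z12‖ ^ 2 +
      p2 * q1 * (p2 * q1 - k * (p1 * q2)) * ‖z21‖ ^ 2 +
      p2 * q2 * (p2 * q2 + k * (p1 * q1)) * ‖z22‖ ^ 2 ≤ τ) : 27 / 28 ≤ τ := by
  by_cases hn1 : p2 * q1 - k * (p1 * q2) < 0
  · exact core_neg hp hq hp1 hp2 hq1 hq2 hk0 hk1 hz h11 h12 h22 hF hdet hn1
  by_cases hn2 : p1 * q2 - k * (p2 * q1) < 0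
  · refine core_neg (p1 := p2) (p2 := p1) (q1 := q2) (q2 := q1) (z11 := z22) (z12 := z21)
      (z21 := z12) (z22 := z11) (by linarith) (by linarith) hp2 hp1 hq2 hq1 hk0 hk1 ?_ h22 h21 h11
      ?_ ?_ hn2
    · rw [add_comm, hz, add_comm]
    · linarith
    · convert hdet using 2
      · ring
      · congr 2
        push_cast
        ring
  push Not at hn1 hn2
  have hsum : p1 * q1 * (p1 * q1 + k * (p2 * q2)) + p1 * q2 * (p1 * q2 - k * (p2 * q1)) +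
      p2 * q1 * (p2 * q1 - k * (p1 * q2)) + p2 * q2 * (p2 * q2 + k * (p1 * q1)) = 1 := by
    have : p1 * q1 * (p1 * q1 + k * (p2 * q2)) + p1 * q2 * (p1 * q2 - k * (p2 * q1)) +
      p2 * q1 * (p2 * q1 - k * (p1 * q2)) + p2 * q2 * (p2 * q2 + k * (p1 * q1)) =
      (p1 ^ 2 + p2 ^ 2) * (q1 ^ 2 + q2 ^ 2) := by ring
    rw [this, hp, hq, one_mul]
  have y : ∀ z : ℂ, 1 ≤ ‖z‖ → 0 ≤ ‖z‖ ^ 2 - 1 := by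
    intro z hz'
    nlinarith
  have g1 : 0 ≤ p1 * q1 * (p1 * q1 + k * (p2 * q2)) * (‖z11‖ ^ 2 - 1) :=
    mul_nonneg (by positivity) (y _ h11)
  have g2 : 0 ≤ p1 * q2 * (p1 * q2 - k * (p2 * q1)) * (‖z12‖ ^ 2 - 1) :=
    mul_nonneg (mul_nonneg (by positivity) hn2) (y _ h12)
  have g3 : 0 ≤ p2 * q1 * (p2 * q1 - k * (p1 * q2)) * (‖z21‖ ^ 2 - 1) :=
    mul_nonneg (mul_nonneg (by positivity) hn1) (y _ h21)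
  have g4 : 0 ≤ p2 * q2 * (p2 * q2 + k * (p1 * q1)) * (‖z22‖ ^ 2 - 1) :=
    mul_nonneg (by positivity) (y _ h22)
  linarith

theorem core_cx {p1 p2 q1 q2 k τ : ℝ} {z11 z12 z21 z22 : ℂ} (hp : p1 ^ 2 + p2 ^ 2 = 1)
    (hq : q1 ^ 2 + q2 ^ 2 = 1) (hp1 : 0 ≤ p1) (hp2 : 0 ≤ p2) (hq1 : 0 ≤ q1) (hq2 : 0 ≤ q2)
    (hk : |k| ≤ 1) (hz : z11 + z22 = z12 + z21)
    (h11 : 1 ≤ ‖z11‖) (h12 : 1 ≤ ‖z12‖) (h21 : 1 ≤ ‖z21‖) (h22 : 1 ≤ ‖z22‖)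
    (hF : (p1 * q1 + k * (p2 * q2)) ^ 2 * ‖z11‖ ^ 2 + (p1 * q2 - k * (p2 * q1)) ^ 2 * ‖z12‖ ^ 2 +
      (p2 * q1 - k * (p1 * q2)) ^ 2 * ‖z21‖ ^ 2 + (p2 * q2 + k * (p1 * q1)) ^ 2 * ‖z22‖ ^ 2 ≤
        2 * τ)
    (hdet : 0 ≤ τ ^ 2 - τ * ((p1 * q1 + k * (p2 * q2)) ^ 2 * ‖z11‖ ^ 2 +
      (p1 * q2 - k * (p2 * q1)) ^ 2 * ‖z12‖ ^ 2 +
      (p2 * q1 - k * (p1 * q2)) ^ 2 * ‖z21‖ ^ 2 + (p2 * q2 + k * (p1 * q1)) ^ 2 * ‖z22‖ ^ 2) +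
      ‖(((p1 * q1 + k * (p2 * q2)) * (p2 * q2 + k * (p1 * q1)) : ℝ) : ℂ) * (z11 * z22) -
        (((p1 * q2 - k * (p2 * q1)) * (p2 * q1 - k * (p1 * q2)) : ℝ) : ℂ) * (z12 * z21)‖ ^ 2)
    (hX : p1 * q1 * (p1 * q1 + k * (p2 * q2)) * ‖z11‖ ^ 2 +
      p1 * q2 * (p1 * q2 - k * (p2 * q1)) * ‖z12‖ ^ 2 +
      p2 * q1 * (p2 * q1 - k * (p1 * q2)) * ‖z21‖ ^ 2 +
      p2 * q2 * (p2 * q2 + k * (p1 * q1)) * ‖z22‖ ^ 2 ≤ τ) : 27 / 28 ≤ τ := by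
  rw [abs_le] at hk
  by_cases hk0 : 0 ≤ k
  · exact core_pos hp hq hp1 hp2 hq1 hq2 hk0 hk.2 hz h11 h12 h21 h22 hF hdet hX
  push Not at hk0
  refine core_pos (q1 := q2) (q2 := q1) (k := -k) (z11 := z12) (z12 := z11) (z21 := z22)
    (z22 := z21) hp (by linarith) hp1 hp2 hq2 hq1 (by linarith) (by linarith) hz.symm
    h12 h11 h22 h21 ?_ ?_ ?_
  · nlinarith
  · convert hdet using 2
    · ring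
    · rw [← norm_neg]
      congr 2
      push_cast
      ring
  · nlinarith

end SpecVar.CThree
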