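import Pool.Agent.Lib.MP_29a676_an.Cert.Norm

/-!
# An extremal pair of normal `3 × 3` matrices (Krause's constant `√(28/27)`)
-/

namespace SpecVar.CThree.Ex

open Complex Matrix Polynomial
open scoped Matrix.Norms.L2Operator

/-- the eigenvalues of `A` -/
noncomputable def al : Fin 3 → ℂ :=
  ![1, ⟨17 / 14, -(5 / 14) * Real.sqrt 3⟩, ⟨9 / 14, -(1 / 14) * Real.sqrt 3⟩]

/-- the eigenvalues of `B` -/
noncomputable def be : Fin 3 → ℂ :=
  ![0, ⟨3 / 14, -(5 / 14) * Real.sqrt 3⟩, ⟨4 / 7, -(2 / 7) * Real.sqrt 3⟩]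

/-- the orthogonal matrix -/
noncomputable def U : Matrix (Fin 3) (Fin 3) ℂ :=
  !![((Real.sqrt 2 * Real.sqrt 5 / 4 : ℝ) : ℂ), 1 / 2, ((-Real.sqrt 2 / 4 : ℝ) : ℂ);
     -1 / 4, ((Real.sqrt 2 * Real.sqrt 5 / 4 : ℝ) : ℂ), ((Real.sqrt 5 / 4 : ℝ) : ℂ);
     ((-Real.sqrt 5 / 4 : ℝ) : ℂ), ((Real.sqrt 2 / 4 : ℝ) : ℂ), -3 / 4]

/-- the quadratic form identity: `T - N^*N` has rank one -/
theorem form (r : ℝ) (hr : r ^ 2 = 3) (y1 y2 y3 : ℂ) :
    10 * normSq (y1 + 2 * (⟨11 / 14, 5 / 14 * r⟩ * y2) - ⟨3 / 7, 2 / 7 * r⟩ * y3) +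
    normSq (-(⟨17 / 14, -(5 / 14) * r⟩ * y1) + 10 * y2 + 5 * (⟨9 / 14, -(1 / 14) * r⟩ * y3)) +
    5 * normSq (-(⟨9 / 14, -(1 / 14) * r⟩ * y1) + 2 * (⟨3 / 7, 2 / 7 * r⟩ * y2) -
      3 * (⟨1 / 14, 3 / 14 * r⟩ * y3)) + 10 / 7 * normSq (y1 + ⟨-1, -r⟩ * y2 + ⟨6, r⟩ * y3) =
    16 * (27 / 28) * (normSq y1 + 10 * normSq y2 + 5 * normSq y3) := by
  obtain ⟨a1, b1⟩ := y1
  obtain ⟨a2, b2⟩ := y2
  obtain ⟨a3, b3⟩ := y3
  simp only [normSq_apply, add_re, add_im, mul_re, mul_im, sub_re, sub_im, neg_re, neg_im,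
    Complex.re_ofNat, Complex.im_ofNat]
  ring_nf
  simp only [hr]
  ring

theorem s2 : ((Real.sqrt 2 : ℝ) : ℂ) ^ 2 = 2 := by
  rw [← Complex.ofReal_pow, Real.sq_sqrt (by norm_num)]; norm_num

theorem s5 : ((Real.sqrt 5 : ℝ) : ℂ) ^ 2 = 5 := by
  rw [← Complex.ofReal_pow, Real.sq_sqrt (by norm_num)]; norm_num

theorem U_conj : Uᴴ = Uᵀ := by
  ext i j
  fin_cases i <;> fin_cases j <;> simp [U, Matrix.conjTranspose_apply]

theorem U_mul : U * Uᴴ = 1 := by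
  rw [U_conj]
  have h2 := s2
  have h5 := s5
  ext i j
  fin_cases i <;> fin_cases j <;>
    simp [U, Matrix.mul_apply, Fin.sum_univ_three] <;> ring_nf <;>
    (try simp only [h2, h5]) <;> (try ring)

theorem U_mul' : Uᴴ * U = 1 := mul_eq_one_comm.1 U_mul

/-- `A` -/
noncomputable def A : Matrix (Fin 3) (Fin 3) ℂ := Matrix.diagonal al

/-- `B` -/
noncomputable def B : Matrix (Fin 3) (Fin 3) ℂ := U * Matrix.diagonal be * Uᴴ

theorem A_normal : IsStarNormal A := by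
  refine ⟨?_⟩
  unfold A
  rw [Commute, SemiconjBy, Matrix.star_eq_conjTranspose, Matrix.diagonal_conjTranspose,
    Matrix.diagonal_mul_diagonal, Matrix.diagonal_mul_diagonal]
  congr 1
  ext i
  exact mul_comm _ _

theorem B_normal : IsStarNormal B := by
  refine ⟨?_⟩
  unfold B
  rw [Commute, SemiconjBy, Matrix.star_eq_conjTranspose, Matrix.conjTranspose_mul,
    Matrix.conjTranspose_mul, Matrix.conjTranspose_conjTranspose, Matrix.diagonal_conjTranspose]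
  have e1 : U * (Matrix.diagonal (star be) * Uᴴ) * (U * Matrix.diagonal be * Uᴴ) =
      U * (Matrix.diagonal (star be) * Matrix.diagonal be) * Uᴴ := by
    calc U * (Matrix.diagonal (star be) * Uᴴ) * (U * Matrix.diagonal be * Uᴴ) =
        U * Matrix.diagonal (star be) * (Uᴴ * U) * Matrix.diagonal be * Uᴴ := by noncomm_ring
      _ = _ := by rw [U_mul']; noncomm_ring
  have e2 : U * Matrix.diagonal be * Uᴴ * (U * (Matrix.diagonal (star be) * Uᴴ)) =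
      U * (Matrix.diagonal be * Matrix.diagonal (star be)) * Uᴴ := by
    calc U * Matrix.diagonal be * Uᴴ * (U * (Matrix.diagonal (star be) * Uᴴ)) =
        U * Matrix.diagonal be * (Uᴴ * U) * Matrix.diagonal (star be) * Uᴴ := by noncomm_ring
      _ = _ := by rw [U_mul']; noncomm_ring
  rw [e1, e2, Matrix.diagonal_mul_diagonal, Matrix.diagonal_mul_diagonal]
  congr 3
  ext i
  exact mul_comm _ _

theorem A_charpoly : A.charpoly = ∏ i, (X - C (al i)) := Matrix.charpoly_diagonal _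

theorem B_charpoly : B.charpoly = ∏ i, (X - C (be i)) := by
  rw [← Matrix.charpoly_diagonal]
  unfold B
  rw [Matrix.mul_assoc, Matrix.charpoly_mul_comm, Matrix.mul_assoc, U_mul', Matrix.mul_one]

open Pool.Agent.Lib.MP_29a676_an.Cert

theorem nsq_conj (x : Fin 3 → ℂ) : nsq (Uᴴ *ᵥ x) = nsq x := by
  rw [nsq_mulVec, Matrix.conjTranspose_conjTranspose, U_mul, Matrix.one_mulVec]
  rfl

theorem nsq_N (t : Fin 3 → ℂ) :
    nsq ((A * U - U * Matrix.diagonal be) *ᵥ t) ≤ 27 / 28 * nsq t := by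
  have r2 : (Real.sqrt 2) ^ 2 = 2 := Real.sq_sqrt (by norm_num)
  have r5 : (Real.sqrt 5) ^ 2 = 5 := Real.sq_sqrt (by norm_num)
  have r3 : (Real.sqrt 3) ^ 2 = 3 := Real.sq_sqrt (by norm_num)
  have c2 := s2
  have c5 := s5
  have p2 : Real.sqrt 2 ≠ 0 := by
    intro h; rw [h] at r2; norm_num at r2
  have p5 : Real.sqrt 5 ≠ 0 := by
    intro h; rw [h] at r5; norm_num at r5
  have q2 : ((Real.sqrt 2 : ℝ) : ℂ) ≠ 0 := by exact_mod_cast p2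
  have q5 : ((Real.sqrt 5 : ℝ) : ℂ) ≠ 0 := by exact_mod_cast p5
  obtain ⟨y1, hy1⟩ : ∃ y1, t 0 = y1 := ⟨_, rfl⟩
  obtain ⟨y2, hy2⟩ : ∃ y2, t 1 = ((Real.sqrt 2 * Real.sqrt 5 : ℝ) : ℂ) * y2 :=
    ⟨t 1 / ((Real.sqrt 2 * Real.sqrt 5 : ℝ) : ℂ), by push_cast; field_simp⟩
  obtain ⟨y3, hy3⟩ : ∃ y3, t 2 = ((Real.sqrt 5 : ℝ) : ℂ) * y3 :=
    ⟨t 2 / ((Real.sqrt 5 : ℝ) : ℂ), by field_simp⟩
  have z01 : al 0 - be 1 = ⟨11 / 14, 5 / 14 * Real.sqrt 3⟩ := by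
    apply Complex.ext <;> simp [al, be]
    ring
  have z02 : al 0 - be 2 = ⟨3 / 7, 2 / 7 * Real.sqrt 3⟩ := by
    apply Complex.ext <;> simp [al, be]
    ring
  have z10 : al 1 - be 0 = ⟨17 / 14, -(5 / 14) * Real.sqrt 3⟩ := by
    apply Complex.ext <;> simp [al, be]
  have z12 : al 1 - be 2 = ⟨9 / 14, -(1 / 14) * Real.sqrt 3⟩ := by
    apply Complex.ext <;> simp [al, be] <;> ring
  have z20 : al 2 - be 0 = ⟨9 / 14, -(1 / 14) * Real.sqrt 3⟩ := by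
    apply Complex.ext <;> simp [al, be]
  have z21 : al 2 - be 1 = ⟨3 / 7, 2 / 7 * Real.sqrt 3⟩ := by
    apply Complex.ext <;> simp [al, be] <;> ring
  have z22 : al 2 - be 2 = ⟨1 / 14, 3 / 14 * Real.sqrt 3⟩ := by
    apply Complex.ext <;> simp [al, be] <;> ring
  have z00 : al 0 - be 0 = 1 := by
    apply Complex.ext <;> simp [al, be]
  have z11 : al 1 - be 1 = 1 := by
    apply Complex.ext <;> simp [al, be]
    ring
  have hN : ∀ i, ((A * U - U * Matrix.diagonal be) *ᵥ t) i =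
      (al i - be 0) * U i 0 * t 0 + (al i - be 1) * U i 1 * t 1 + (al i - be 2) * U i 2 * t 2 := by
    intro i
    rw [Matrix.mulVec, dotProduct, Fin.sum_univ_three]
    simp only [Matrix.sub_apply, A, Matrix.diagonal_mul, Matrix.mul_diagonal]
    ring
  have e0 : ((A * U - U * Matrix.diagonal be) *ᵥ t) 0 = ((Real.sqrt 2 * Real.sqrt 5 / 4 : ℝ) : ℂ) *
      (y1 + 2 * (⟨11 / 14, 5 / 14 * Real.sqrt 3⟩ * y2) - ⟨3 / 7, 2 / 7 * Real.sqrt 3⟩ * y3) := by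
    rw [hN, hy1, hy2, hy3, z00, z01, z02]
    simp only [U, Matrix.of_apply, Matrix.cons_val]
    push_cast
    ring
  have e1 : ((A * U - U * Matrix.diagonal be) *ᵥ t) 1 = ((1 / 4 : ℝ) : ℂ) *
      (-(⟨17 / 14, -(5 / 14) * Real.sqrt 3⟩ * y1) + 10 * y2 +
        5 * (⟨9 / 14, -(1 / 14) * Real.sqrt 3⟩ * y3)) := by
    rw [hN, hy1, hy2, hy3, z10, z11, z12]
    simp only [U, Matrix.of_apply, Matrix.cons_val]
    push_cast
    linear_combination (1 / 4) * ((Real.sqrt 5 : ℝ) : ℂ) ^ 2 * y2 * c2 + (1 / 2) * y2 * c5 +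
      (1 / 4) * ⟨9 / 14, -(1 / 14) * Real.sqrt 3⟩ * y3 * c5
  have e2 : ((A * U - U * Matrix.diagonal be) *ᵥ t) 2 = ((Real.sqrt 5 / 4 : ℝ) : ℂ) *
      (-(⟨9 / 14, -(1 / 14) * Real.sqrt 3⟩ * y1) + 2 * (⟨3 / 7, 2 / 7 * Real.sqrt 3⟩ * y2) -
      3 * (⟨1 / 14, 3 / 14 * Real.sqrt 3⟩ * y3)) := by
    rw [hN, hy1, hy2, hy3, z20, z21, z22]
    simp only [U, Matrix.of_apply, Matrix.cons_val]
    push_cast
    linear_combination (1 / 4) * ((Real.sqrt 5 : ℝ) : ℂ) * ⟨3 / 7, 2 / 7 * Real.sqrt 3⟩ * y2 * c2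
  have f := form (Real.sqrt 3) r3 y1 y2 y3
  rw [nsq_eq, nsq_eq, Fin.sum_univ_three, Fin.sum_univ_three, e0, e1, e2, hy1, hy2, hy3]
  simp only [← Complex.normSq_eq_norm_sq, Complex.normSq_mul, Complex.normSq_ofReal]
  have g1 : Real.sqrt 2 * Real.sqrt 5 / 4 * (Real.sqrt 2 * Real.sqrt 5 / 4) = 10 / 16 := by
    have : Real.sqrt 2 * Real.sqrt 5 / 4 * (Real.sqrt 2 * Real.sqrt 5 / 4) =
      (Real.sqrt 2) ^ 2 * (Real.sqrt 5) ^ 2 / 16 := by ring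
    rw [this, r2, r5]; norm_num
  have g2 : Real.sqrt 5 / 4 * (Real.sqrt 5 / 4) = 5 / 16 := by
    have : Real.sqrt 5 / 4 * (Real.sqrt 5 / 4) = (Real.sqrt 5) ^ 2 / 16 := by ring
    rw [this, r5]
  have g3 : Real.sqrt 2 * Real.sqrt 5 * (Real.sqrt 2 * Real.sqrt 5) = 10 := by
    have : Real.sqrt 2 * Real.sqrt 5 * (Real.sqrt 2 * Real.sqrt 5) =
      (Real.sqrt 2) ^ 2 * (Real.sqrt 5) ^ 2 := by ring
    rw [this, r2, r5]; norm_num
  have g4 : Real.sqrt 5 * Real.sqrt 5 = 5 := by rw [← pow_two]; exact r5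
  rw [g1, g2, g3, g4]
  have h0 := Complex.normSq_nonneg (y1 + ⟨-1, -Real.sqrt 3⟩ * y2 + ⟨6, Real.sqrt 3⟩ * y3)
  linarith

theorem norm_le : ‖A - B‖ ≤ Real.sqrt (27 / 28) := by
  apply opNorm_le _ _ (Real.sqrt_nonneg _)
  intro x
  rw [Real.sq_sqrt (by norm_num)]
  have h1 : (A - B) *ᵥ x = (A * U - U * Matrix.diagonal be) *ᵥ (Uᴴ *ᵥ x) := by
    rw [Matrix.mulVec_mulVec, Matrix.sub_mul, Matrix.mul_assoc A, U_mul, Matrix.mul_one]
    rfl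
  rw [h1, ← nsq_conj x]
  exact nsq_N _

theorem one_le_of_normSq {z : ℂ} (h : 1 ≤ normSq z) : 1 ≤ ‖z‖ := by
  rw [Complex.normSq_eq_norm_sq] at h
  by_contra hc
  push Not at hc
  nlinarith [norm_nonneg z]

theorem sep : ∀ i j : Fin 3, i ≠ 2 → j ≠ 2 → 1 ≤ ‖al i - be j‖ := by
  intro i j hi hj
  apply one_le_of_normSq
  fin_cases i <;> fin_cases j <;> simp_all [al, be, normSq_apply] <;>
    nlinarith [Real.mul_self_sqrt (show (0 : ℝ) ≤ 3 by norm_num)]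

theorem exists_far (σ : Equiv.Perm (Fin 3)) : ∃ k, 1 ≤ ‖al k - be (σ k)‖ := by
  by_cases h0 : σ 0 = 2
  · refine ⟨1, sep _ _ (by decide) ?_⟩
    intro h1
    have : (0 : Fin 3) = 1 := σ.injective (by rw [h0, h1])
    exact absurd this (by decide)
  · exact ⟨0, sep _ _ (by decide) h0⟩

end SpecVar.CThree.Ex
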