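import Pool.Agent.Lib.MP_29a676_an.CThree.Upper

/-!
# The bound `√(28/27)` for normal operators with at most three distinct eigenvalues
-/

set_option autoImplicit false

namespace SpecVar.CThree.Few

open Complex ContinuousLinearMap

variable {E : Type*} [NormedAddCommGroup E] [InnerProductSpace ℂ E] [FiniteDimensional ℂ E]

/-- an eigenvector of `A` in the span of eigenvectors of `B` with far eigenvalues -/
theorem eig_far {n : ℕ} (b : OrthonormalBasis (Fin n) ℂ E) (A B : E →L[ℂ] E) (β : Fin n → ℂ)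
    (hB' : ∀ k, adjoint B (b k) = (starRingEnd ℂ (β k)) • b k) {x : E} {η : ℂ} (hx : ‖x‖ = 1)
    (hA : A x = η • x) {m : ℝ} (hm : 0 ≤ m) (T : Finset (Fin n))
    (hT : ∀ k, k ∉ T → (inner ℂ (b k) x) = 0) (h : ∀ k ∈ T, m ≤ ‖η - β k‖) :
    m ^ 2 ≤ ‖A - B‖ ^ 2 := by
  have h1 : ∀ k, (inner ℂ (b k) ((A - B) x)) = (η - β k) * (inner ℂ (b k) x) := by
    intro k
    rw [_root_.sub_apply, inner_sub_right, hA, ← adjoint_inner_left B, hB',
      inner_smul_left, inner_smul_right, Complex.conj_conj]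
    ring
  calc m ^ 2 = ∑ k, m ^ 2 * ‖(inner ℂ (b k) x)‖ ^ 2 := by
        rw [← Finset.mul_sum, b.sum_sq_norm_inner_right, hx]; ring
    _ ≤ ∑ k, ‖(inner ℂ (b k) ((A - B) x))‖ ^ 2 := by
        refine Finset.sum_le_sum fun k _ => ?_
        rw [h1 k, norm_mul, mul_pow]
        by_cases hk : k ∈ T
        · gcongr
          exact h k hk
        · rw [hT k hk]; simp
    _ = ‖(A - B) x‖ ^ 2 := b.sum_sq_norm_inner_right _
    _ ≤ ‖A - B‖ ^ 2 := by
        have := (A - B).le_opNorm x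
        rw [hx, mul_one] at this
        exact pow_le_pow_left₀ (norm_nonneg _) this 2

omit [FiniteDimensional ℂ E] in
/-- a set of at most two values -/
theorem vals {n : ℕ} (α : Fin n → ℂ) (S : Finset (Fin n)) (hS : S.Nonempty)
    (h2 : (S.image α).card ≤ 2) : ∃ i1 ∈ S, ∃ i2 ∈ S, ∀ i ∈ S, α i = α i1 ∨ α i = α i2 := by
  classical
  have hc1 : 0 < (S.image α).card := Finset.card_pos.mpr (hS.image α)
  have hcases : (S.image α).card = 1 ∨ (S.image α).card = 2 := by omega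
  rcases hcases with h | h
  · obtain ⟨v, hv⟩ := Finset.card_eq_one.mp h
    obtain ⟨i, hi⟩ := hS
    have hiv : ∀ j ∈ S, α j = v := by
      intro j hj
      have : α j ∈ S.image α := Finset.mem_image_of_mem α hj
      rw [hv, Finset.mem_singleton] at this
      exact this
    exact ⟨i, hi, i, hi, fun j hj => Or.inl ((hiv j hj).trans (hiv i hi).symm)⟩
  · obtain ⟨v, w, _, hvw⟩ := Finset.card_eq_two.mp h
    have hv : v ∈ S.image α := by rw [hvw]; simp
    have hw : w ∈ S.image α := by rw [hvw]; simp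
    obtain ⟨i1, hi1, e1⟩ := Finset.mem_image.mp hv
    obtain ⟨i2, hi2, e2⟩ := Finset.mem_image.mp hw
    refine ⟨i1, hi1, i2, hi2, fun j hj => ?_⟩
    have : α j ∈ S.image α := Finset.mem_image_of_mem α hj
    rw [hvw, Finset.mem_insert, Finset.mem_singleton] at this
    rw [e1, e2]
    exact this

/-- at most two values, if there are three and one is missing -/
theorem card_le_two {n : ℕ} (α : Fin n → ℂ) (S : Finset (Fin n))
    (h3 : (Finset.univ.image α).card ≤ 3) (hmiss : ∃ i, ∀ j ∈ S, α i ≠ α j) :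
    (S.image α).card ≤ 2 := by
  classical
  obtain ⟨i0, hi0⟩ := hmiss
  have hsub : S.image α ⊂ Finset.univ.image α := by
    rw [Finset.ssubset_iff_of_subset (Finset.image_subset_image (Finset.subset_univ S))]
    refine ⟨α i0, Finset.mem_image_of_mem α (Finset.mem_univ i0), ?_⟩
    intro h
    obtain ⟨j, hj, hij⟩ := Finset.mem_image.mp h
    exact hi0 j hj hij.symm
  have := Finset.card_lt_card hsub
  omega

/-- splitting a vector into two eigenvectors -/
theorem split {n : ℕ} (a : OrthonormalBasis (Fin n) ℂ E) (A : E →L[ℂ] E) (α : Fin n → ℂ)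
    (hA : ∀ i, A (a i) = α i • a i)
    (hA' : ∀ i, adjoint A (a i) = (starRingEnd ℂ (α i)) • a i) (S : Finset (Fin n)) (x : E)
    (hxa : ∀ i, i ∉ S → (inner ℂ (a i) x) = 0) {i1 i2 : Fin n}
    (hS : ∀ i ∈ S, α i = α i1 ∨ α i = α i2) :
    ∃ x1 x2 : E, x1 + x2 = x ∧ (inner ℂ x1 x2) = 0 ∧ A x1 = α i1 • x1 ∧ A x2 = α i2 • x2 ∧
      adjoint A x1 = (starRingEnd ℂ (α i1)) • x1 ∧ adjoint A x2 = (starRingEnd ℂ (α i2)) • x2 := by
  classical
  obtain ⟨P, hP⟩ : ∃ P : Finset (Fin n), P = Finset.univ.filter fun i => α i = α i1 := ⟨_, rfl⟩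
  obtain ⟨x1, hx1⟩ : ∃ x1 : E, x1 = ∑ i ∈ P, (inner ℂ (a i) x) • a i := ⟨_, rfl⟩
  obtain ⟨x2, hx2⟩ : ∃ x2 : E, x2 = ∑ i ∈ Pᶜ, (inner ℂ (a i) x) • a i := ⟨_, rfl⟩
  have hxx : x1 + x2 = x := by
    rw [hx1, hx2, Finset.sum_add_sum_compl, a.sum_repr' x]
  have hv : ∀ i ∈ Pᶜ, (inner ℂ (a i) x) ≠ 0 → α i = α i2 := by
    intro i hi h0
    have hiS : i ∈ S := by
      by_contra h
      exact h0 (hxa i h)
    rcases hS i hiS with h | h
    · exfalso
      rw [Finset.mem_compl, hP, Finset.mem_filter] at hi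
      exact hi ⟨Finset.mem_univ _, h⟩
    · exact h
  refine ⟨x1, x2, hxx, ?_, ?_, ?_, ?_, ?_⟩
  · rw [hx1, sum_inner]
    refine Finset.sum_eq_zero fun i hi => ?_
    rw [hx2, inner_sum]
    refine Finset.sum_eq_zero fun j hj => ?_
    have hij : i ≠ j := by
      rintro rfl
      exact (Finset.mem_compl.mp hj) hi
    rw [inner_smul_left, inner_smul_right, a.inner_eq_zero hij, mul_zero, mul_zero]
  · rw [hx1, map_sum, Finset.smul_sum]
    refine Finset.sum_congr rfl fun i hi => ?_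
    rw [hP, Finset.mem_filter] at hi
    rw [map_smul, hA, hi.2, smul_comm]
  · rw [hx2, map_sum, Finset.smul_sum]
    refine Finset.sum_congr rfl fun i hi => ?_
    by_cases h0 : (inner ℂ (a i) x) = 0
    · rw [h0, zero_smul, map_zero, smul_zero]
    · rw [map_smul, hA, hv i hi h0, smul_comm]
  · rw [hx1, map_sum, Finset.smul_sum]
    refine Finset.sum_congr rfl fun i hi => ?_
    rw [hP, Finset.mem_filter] at hi
    rw [map_smul, hA', hi.2, smul_comm]
  · rw [hx2, map_sum, Finset.smul_sum]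
    refine Finset.sum_congr rfl fun i hi => ?_
    by_cases h0 : (inner ℂ (a i) x) = 0
    · rw [h0, zero_smul, map_zero, smul_zero]
    · rw [map_smul, hA', hv i hi h0, smul_comm]

omit [FiniteDimensional ℂ E] in
theorem normalize {x : E} (h : x ≠ 0) :
    ‖((‖x‖ : ℂ)⁻¹) • x‖ = 1 ∧ x = ((‖x‖ : ℝ) : ℂ) • (((‖x‖ : ℂ)⁻¹) • x) := by
  have hn : ‖x‖ ≠ 0 := norm_ne_zero_iff.mpr h
  have hc : ((‖x‖ : ℝ) : ℂ) ≠ 0 := by exact_mod_cast hn
  constructor
  · rw [norm_smul, norm_inv, Complex.norm_real, norm_norm, inv_mul_cancel₀ hn]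
  · rw [smul_smul, mul_inv_cancel₀ hc, one_smul]

omit [FiniteDimensional ℂ E] in
theorem smul_eig (A : E →L[ℂ] E) {x : E} {η c : ℂ} (h : A x = η • x) :
    A (c • x) = η • (c • x) := by
  rw [map_smul, h, smul_comm]

/-- at most three distinct eigenvalues on each side -/
theorem bound {n : ℕ} (a b : OrthonormalBasis (Fin n) ℂ E) (A B : E →L[ℂ] E)
    (α β : Fin n → ℂ) (hA : ∀ i, A (a i) = α i • a i) (hB : ∀ k, B (b k) = β k • b k)
    (hA' : ∀ i, adjoint A (a i) = (starRingEnd ℂ (α i)) • a i)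
    (hB' : ∀ k, adjoint B (b k) = (starRingEnd ℂ (β k)) • b k) (S T : Finset (Fin n))
    (hcard : n < S.card + T.card) {m : ℝ} (hm : 0 < m)
    (hfar : ∀ i ∈ S, ∀ k ∈ T, m ≤ ‖α i - β k‖) (h3 : (Finset.univ.image α).card ≤ 3)
    (h3' : (Finset.univ.image β).card ≤ 3) :
    27 / 28 * m ^ 2 ≤ ‖A - B‖ ^ 2 := by
  classical
  have hred : m ^ 2 ≤ ‖A - B‖ ^ 2 → 27 / 28 * m ^ 2 ≤ ‖A - B‖ ^ 2 := by
    intro h
    nlinarith [sq_nonneg m]
  have hfar' : ∀ i ∈ S, ∀ k ∈ T, m ≤ ‖β k - α i‖ := by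
    intro i hi k hk
    rw [norm_sub_rev]
    exact hfar i hi k hk
  have hSne : S.Nonempty := by
    rw [← Finset.card_pos]
    have : T.card ≤ n := by simpa using Finset.card_le_univ T
    omega
  have hTne : T.Nonempty := by
    rw [← Finset.card_pos]
    have : S.card ≤ n := by simpa using Finset.card_le_univ S
    omega
  by_cases hall : ∃ i, ∀ j ∈ S, α i ≠ α j
  swap
  · push Not at hall
    obtain ⟨k, hk⟩ := hTne
    apply hred
    rw [norm_sub_rev]
    refine eig_far a B A α hA' (b.norm_eq_one k) (hB k) hm.le Finset.univ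
      (fun i hi => absurd (Finset.mem_univ i) hi) fun i _ => ?_
    obtain ⟨j, hj, hij⟩ := hall i
    rw [hij]
    exact hfar' j hj k hk
  by_cases hall' : ∃ k, ∀ j ∈ T, β k ≠ β j
  swap
  · push Not at hall'
    obtain ⟨i, hi⟩ := hSne
    apply hred
    refine eig_far b A B β hB' (a.norm_eq_one i) (hA i) hm.le Finset.univ
      (fun k hk => absurd (Finset.mem_univ k) hk) fun k _ => ?_
    obtain ⟨j, hj, hkj⟩ := hall' k
    rw [hkj]
    exact hfar i hi j hj
  obtain ⟨i1, hi1, i2, hi2, hv⟩ := vals α S hSne (card_le_two α S h3 hall)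
  obtain ⟨k1, hk1, k2, hk2, hw⟩ := vals β T hTne (card_le_two β T h3' hall')
  obtain ⟨x, hx, hxa, hxb⟩ := SpecVar.exists_common a b S T hcard
  obtain ⟨x1, x2, hxx, hox, ha1, ha2, ha1', ha2'⟩ := split a A α hA hA' S x hxa hv
  obtain ⟨y1, y2, hyy, hoy, hb1, hb2, hb1', hb2'⟩ := split b B β hB hB' T x hxb hw
  by_cases hx1 : x1 = 0
  · apply hred
    rw [hx1, zero_add] at hxx
    rw [hxx] at ha2
    exact eig_far b A B β hB' hx ha2 hm.le T hxb fun k hk => hfar i2 hi2 k hk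
  by_cases hx2 : x2 = 0
  · apply hred
    rw [hx2, add_zero] at hxx
    rw [hxx] at ha1
    exact eig_far b A B β hB' hx ha1 hm.le T hxb fun k hk => hfar i1 hi1 k hk
  by_cases hy1 : y1 = 0
  · apply hred
    rw [hy1, zero_add] at hyy
    rw [hyy] at hb2
    rw [norm_sub_rev]
    exact eig_far a B A α hA' hx hb2 hm.le S hxa fun i hi => hfar' i hi k2 hk2
  by_cases hy2 : y2 = 0
  · apply hred
    rw [hy2, add_zero] at hyy
    rw [hyy] at hb1
    rw [norm_sub_rev]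
    exact eig_far a B A α hA' hx hb1 hm.le S hxa fun i hi => hfar' i hi k1 hk1
  obtain ⟨p1, q1⟩ := normalize hx1
  obtain ⟨p2, q2⟩ := normalize hx2
  obtain ⟨p3, q3⟩ := normalize hy1
  obtain ⟨p4, q4⟩ := normalize hy2
  have o1 : (inner ℂ (((‖x1‖ : ℂ)⁻¹) • x1) (((‖x2‖ : ℂ)⁻¹) • x2)) = 0 := by
    rw [inner_smul_left, inner_smul_right, hox, mul_zero, mul_zero]
  have o2 : (inner ℂ (((‖y1‖ : ℂ)⁻¹) • y1) (((‖y2‖ : ℂ)⁻¹) • y2)) = 0 := by
    rw [inner_smul_left, inner_smul_right, hoy, mul_zero, mul_zero]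
  have hX : x = ((‖x1‖ : ℝ) : ℂ) • (((‖x1‖ : ℂ)⁻¹) • x1) +
      ((‖x2‖ : ℝ) : ℂ) • (((‖x2‖ : ℂ)⁻¹) • x2) := by
    rw [← q1, ← q2, hxx]
  have hY : x = ((‖y1‖ : ℝ) : ℂ) • (((‖y1‖ : ℂ)⁻¹) • y1) +
      ((‖y2‖ : ℝ) : ℂ) • (((‖y2‖ : ℂ)⁻¹) • y2) := by
    rw [← q3, ← q4, hyy]
  exact SpecVar.CThree.two_two A B p1 p2 o1 p3 p4 o2 hx hX hY (smul_eig A ha1) (smul_eig A ha2)
    (smul_eig (adjoint A) ha1') (smul_eig (adjoint A) ha2') (smul_eig B hb1) (smul_eig B hb2)
    (smul_eig (adjoint B) hb1') (smul_eig (adjoint B) hb2') hm (hfar i1 hi1 k1 hk1)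
    (hfar i1 hi1 k2 hk2) (hfar i2 hi2 k1 hk1) (hfar i2 hi2 k2 hk2)

theorem exists_perm {n : ℕ} (a b : OrthonormalBasis (Fin n) ℂ E) (A B : E →L[ℂ] E)
    (α β : Fin n → ℂ) (hA : ∀ i, A (a i) = α i • a i) (hB : ∀ k, B (b k) = β k • b k)
    (hA' : ∀ i, adjoint A (a i) = (starRingEnd ℂ (α i)) • a i)
    (hB' : ∀ k, adjoint B (b k) = (starRingEnd ℂ (β k)) • b k)
    (h3 : (Finset.univ.image α).card ≤ 3) (h3' : (Finset.univ.image β).card ≤ 3) :
    ∃ σ : Equiv.Perm (Fin n), ∀ k, ‖α k - β (σ k)‖ ≤ Real.sqrt (28 / 27) * ‖A - B‖ := by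
  classical
  set c := Real.sqrt (28 / 27) with hc
  have hc2 : c ^ 2 = 28 / 27 := Real.sq_sqrt (by norm_num)
  by_contra hcon
  have hall := (Fintype.all_card_le_filter_rel_iff_exists_injective
    (fun i k : Fin n => ‖α i - β k‖ ≤ c * ‖A - B‖)).not
  have h1 : ¬ ∃ g : Fin n → Fin n, Function.Injective g ∧
      ∀ i, ‖α i - β (g i)‖ ≤ c * ‖A - B‖ := by
    rintro ⟨g, hg, hg2⟩
    exact hcon ⟨Equiv.ofBijective g (Finite.injective_iff_bijective.mp hg), hg2⟩
  have h2 := hall.mpr h1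
  push Not at h2
  obtain ⟨S, hS⟩ := h2
  set R : Finset (Fin n) := Finset.filter
    (fun k => ∃ i ∈ S, ‖α i - β k‖ ≤ c * ‖A - B‖) Finset.univ with hR
  have hS' : R.card < S.card := by
    convert! hS
  obtain ⟨T, hT⟩ : ∃ T, T = Rᶜ := ⟨_, rfl⟩
  have hcard : n < S.card + T.card := by
    have h3 : R.card + Rᶜ.card = n := by
      rw [Finset.card_add_card_compl, Fintype.card_fin]
    rw [hT]
    omega
  have hTn : T.card ≤ n := by simpa using Finset.card_le_univ T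
  have hSn : S.card ≤ n := by simpa using Finset.card_le_univ S
  have hfar : ∀ i ∈ S, ∀ k ∈ T, c * ‖A - B‖ < ‖α i - β k‖ := by
    intro i hi k hk
    rw [hT, Finset.mem_compl, hR, Finset.mem_filter] at hk
    by_contra h
    push Not at h
    exact hk ⟨Finset.mem_univ _, i, hi, h⟩
  have hSne : S.Nonempty := by
    rw [← Finset.card_pos]
    omega
  have hTne : T.Nonempty := by
    rw [← Finset.card_pos]
    omega
  obtain ⟨p, hp, hmin⟩ := Finset.exists_min_image (S ×ˢ T) (fun p => ‖α p.1 - β p.2‖)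
    (hSne.product hTne)
  rw [Finset.mem_product] at hp
  set m := ‖α p.1 - β p.2‖ with hm
  have hpos : c * ‖A - B‖ < m := hfar _ hp.1 _ hp.2
  have hm0 : 0 < m := lt_of_le_of_lt (by positivity) hpos
  have hb := bound a b A B α β hA hB hA' hB' S T hcard hm0
    (fun i hi k hk => hmin (i, k) (Finset.mem_product.mpr ⟨hi, hk⟩)) h3 h3'
  have h4 : (c * ‖A - B‖) ^ 2 < m ^ 2 :=
    pow_lt_pow_left₀ hpos (by positivity) (by norm_num)
  rw [mul_pow, hc2] at h4
  linarith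

end SpecVar.CThree.Few
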