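import Mathlib

/-!
# Contractive complex `2 × 2` matrices
-/

namespace SpecVar.CThree

open Complex

theorem norm_sq_le_mul {H1 H2 : ℝ} {c : ℂ} (h1 : 0 ≤ H1) (h2 : 0 ≤ H2)
    (h : ∀ t1 t2 : ℂ, 2 * ((starRingEnd ℂ t1) * c * t2).re ≤ H1 * ‖t1‖ ^ 2 + H2 * ‖t2‖ ^ 2) :
    ‖c‖ ^ 2 ≤ H1 * H2 := by
  have key : ∀ l m : ℝ, 2 * (l * m * ‖c‖ ^ 2) ≤ H1 * (l ^ 2 * ‖c‖ ^ 2) + H2 * m ^ 2 := by
    intro l m
    have h3 := h ((l : ℂ) * c) (m : ℂ)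
    rw [norm_mul, Complex.norm_real, Complex.norm_real, Real.norm_eq_abs, Real.norm_eq_abs,
      mul_pow, sq_abs, sq_abs, map_mul, Complex.conj_ofReal] at h3
    have h4 : ((l : ℂ) * (starRingEnd ℂ c) * c * (m : ℂ)) = ((l * m * ‖c‖ ^ 2 : ℝ) : ℂ) := by
      rw [mul_assoc (l : ℂ), ← Complex.normSq_eq_conj_mul_self, Complex.normSq_eq_norm_sq]
      push_cast
      ring
    rw [h4, Complex.ofReal_re] at h3
    exact h3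
  by_cases hc : ‖c‖ = 0
  · rw [hc]
    have := mul_nonneg h1 h2
    simpa using this
  have hc0 : 0 < ‖c‖ ^ 2 := by positivity
  rcases h2.eq_or_lt with h20 | h20
  · exfalso
    have h3 := key 1 (H1 + 1)
    rw [← h20] at h3
    nlinarith
  · have h3 := key H2 (‖c‖ ^ 2)
    have h4 : (H2 * ‖c‖ ^ 2) * ‖c‖ ^ 2 ≤ (H2 * ‖c‖ ^ 2) * (H1 * H2) := by nlinarith
    exact le_of_mul_le_mul_left h4 (by positivity)

theorem two_by_two {n11 n12 n21 n22 : ℂ} {τ : ℝ}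
    (h : ∀ s1 s2 t1 t2 : ℂ, ‖starRingEnd ℂ s1 * (n11 * t1 + n12 * t2) +
      starRingEnd ℂ s2 * (n21 * t1 + n22 * t2)‖ ≤
        τ * (Real.sqrt (‖s1‖ ^ 2 + ‖s2‖ ^ 2) * Real.sqrt (‖t1‖ ^ 2 + ‖t2‖ ^ 2))) :
    ‖n11‖ ^ 2 + ‖n12‖ ^ 2 + ‖n21‖ ^ 2 + ‖n22‖ ^ 2 ≤ 2 * τ ^ 2 ∧
    0 ≤ (τ ^ 2) ^ 2 - τ ^ 2 * (‖n11‖ ^ 2 + ‖n12‖ ^ 2 + ‖n21‖ ^ 2 + ‖n22‖ ^ 2) +
      ‖n11 * n22 - n12 * n21‖ ^ 2 := by
  have h1 : ∀ t1 t2 : ℂ, ‖n11 * t1 + n12 * t2‖ ^ 2 + ‖n21 * t1 + n22 * t2‖ ^ 2 ≤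
      τ ^ 2 * (‖t1‖ ^ 2 + ‖t2‖ ^ 2) := by
    intro t1 t2
    set S := ‖n11 * t1 + n12 * t2‖ ^ 2 + ‖n21 * t1 + n22 * t2‖ ^ 2 with hS
    have hS0 : 0 ≤ S := by positivity
    have h2 := h (n11 * t1 + n12 * t2) (n21 * t1 + n22 * t2) t1 t2
    rw [← Complex.normSq_eq_conj_mul_self, ← Complex.normSq_eq_conj_mul_self,
      Complex.normSq_eq_norm_sq, Complex.normSq_eq_norm_sq, ← Complex.ofReal_add,
      Complex.norm_real, ← hS, Real.norm_eq_abs, abs_of_nonneg hS0] at h2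
    set R := Real.sqrt (‖t1‖ ^ 2 + ‖t2‖ ^ 2) with hR
    have hR2 : R ^ 2 = ‖t1‖ ^ 2 + ‖t2‖ ^ 2 := Real.sq_sqrt (by positivity)
    have hR0 : 0 ≤ R := Real.sqrt_nonneg _
    set Q := Real.sqrt S with hQ
    have hQ2 : Q ^ 2 = S := Real.sq_sqrt hS0
    have hQ0 : 0 ≤ Q := Real.sqrt_nonneg _
    rw [← hR2, ← hQ2]
    rw [← hQ2] at h2
    rcases hQ0.eq_or_lt with hq | hq
    · rw [← hq]
      have : 0 ≤ τ ^ 2 * R ^ 2 := by positivity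
      simpa using this
    · have h3 : Q * Q ≤ Q * (τ * R) := by
        rw [pow_two] at h2
        linarith
      have h4 : Q ≤ τ * R := le_of_mul_le_mul_left h3 hq
      rw [← mul_pow]
      exact pow_le_pow_left₀ hQ0 h4 2
  have H1 : ‖n11‖ ^ 2 + ‖n21‖ ^ 2 ≤ τ ^ 2 := by
    have := h1 1 0
    simpa using this
  have H2 : ‖n12‖ ^ 2 + ‖n22‖ ^ 2 ≤ τ ^ 2 := by
    have := h1 0 1
    simpa using this
  refine ⟨by linarith, ?_⟩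
  have h3 := norm_sq_le_mul (H1 := τ ^ 2 - (‖n11‖ ^ 2 + ‖n21‖ ^ 2))
    (H2 := τ ^ 2 - (‖n12‖ ^ 2 + ‖n22‖ ^ 2))
    (c := starRingEnd ℂ n11 * n12 + starRingEnd ℂ n21 * n22) (by linarith) (by linarith) (by
    intro t1 t2
    have h4 := h1 t1 t2
    have h5 : ‖n11 * t1 + n12 * t2‖ ^ 2 + ‖n21 * t1 + n22 * t2‖ ^ 2 =
        (‖n11‖ ^ 2 + ‖n21‖ ^ 2) * ‖t1‖ ^ 2 + (‖n12‖ ^ 2 + ‖n22‖ ^ 2) * ‖t2‖ ^ 2 +
        2 * ((starRingEnd ℂ t1) * (starRingEnd ℂ n11 * n12 + starRingEnd ℂ n21 * n22) * t2).re := by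
      simp only [← Complex.normSq_eq_norm_sq, Complex.normSq_apply, add_re, add_im, mul_re, mul_im,
        conj_re, conj_im]
      ring
    linarith)
  have h6 : ‖starRingEnd ℂ n11 * n12 + starRingEnd ℂ n21 * n22‖ ^ 2 +
      ‖n11 * n22 - n12 * n21‖ ^ 2 = (‖n11‖ ^ 2 + ‖n21‖ ^ 2) * (‖n12‖ ^ 2 + ‖n22‖ ^ 2) := by
    simp only [← Complex.normSq_eq_norm_sq, Complex.normSq_apply, add_re, add_im, mul_re, mul_im,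
        conj_re, conj_im, sub_re, sub_im]
    ring
  nlinarith

theorem exists_phase (u : ℂ) : ∃ ζ : ℂ, ‖ζ‖ = 1 ∧ (‖u‖ : ℂ) * ζ = u := by
  by_cases hu : u = 0
  · exact ⟨1, by simp, by simp [hu]⟩
  · have h1 : ‖u‖ ≠ 0 := norm_ne_zero_iff.mpr hu
    refine ⟨u / ‖u‖, ?_, ?_⟩
    · rw [norm_div, Complex.norm_real, norm_norm, div_self h1]
    · have : (‖u‖ : ℂ) ≠ 0 := by exact_mod_cast h1
      field_simp

end SpecVar.CThree
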