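import Pool.Agent.Lib.MP_29a676_an.CThree.Cx
import Pool.Agent.Lib.MP_29a676_an.CThree.Two

/-!
# From normal operators to the `2 × 2` core
-/

namespace SpecVar.CThree

open Complex ContinuousLinearMap

variable {E : Type*} [NormedAddCommGroup E] [InnerProductSpace ℂ E] [FiniteDimensional ℂ E]

omit [FiniteDimensional ℂ E] in
theorem norm_comb {a1 a2 : E} (n1 : ‖a1‖ = 1) (n2 : ‖a2‖ = 1) (o : (inner ℂ a1 a2) = 0) (s1 s2 : ℂ) :
    ‖s1 • a1 + s2 • a2‖ = Real.sqrt (‖s1‖ ^ 2 + ‖s2‖ ^ 2) := by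
  rw [← Real.sqrt_sq (norm_nonneg (s1 • a1 + s2 • a2))]
  congr 1
  have h := @norm_add_sq ℂ E _ _ _ (s1 • a1) (s2 • a2)
  rw [h, inner_smul_left, inner_smul_right, o, norm_smul, norm_smul, n1, n2]
  simp

/-- real coefficient version, separation `1` -/
theorem two_real (A B : E →L[ℂ] E) {a1 a2 b1 b2 : E} {α1 α2 β1 β2 : ℂ} {p1 p2 q1 q2 : ℝ}
    (na1 : ‖a1‖ = 1) (na2 : ‖a2‖ = 1) (oa : (inner ℂ a1 a2) = 0)
    (nb1 : ‖b1‖ = 1) (nb2 : ‖b2‖ = 1) (ob : (inner ℂ b1 b2) = 0)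
    (hp1 : 0 ≤ p1) (hp2 : 0 ≤ p2) (hq1 : 0 ≤ q1) (hq2 : 0 ≤ q2)
    (hp : p1 ^ 2 + p2 ^ 2 = 1) (hq : q1 ^ 2 + q2 ^ 2 = 1)
    (hx : (p1 : ℂ) • a1 + (p2 : ℂ) • a2 = (q1 : ℂ) • b1 + (q2 : ℂ) • b2)
    (hA1 : A a1 = α1 • a1) (hA2 : A a2 = α2 • a2)
    (hA1' : adjoint A a1 = (starRingEnd ℂ α1) • a1) (hA2' : adjoint A a2 = (starRingEnd ℂ α2) • a2)
    (hB1 : B b1 = β1 • b1) (hB2 : B b2 = β2 • b2)
    (hB1' : adjoint B b1 = (starRingEnd ℂ β1) • b1) (hB2' : adjoint B b2 = (starRingEnd ℂ β2) • b2)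
    (h11 : 1 ≤ ‖α1 - β1‖) (h12 : 1 ≤ ‖α1 - β2‖) (h21 : 1 ≤ ‖α2 - β1‖) (h22 : 1 ≤ ‖α2 - β2‖) :
    27 / 28 ≤ ‖A - B‖ ^ 2 := by
  have hpC : (p1 : ℂ) ^ 2 + (p2 : ℂ) ^ 2 = 1 := by exact_mod_cast hp
  have hqC : (q1 : ℂ) ^ 2 + (q2 : ℂ) ^ 2 = 1 := by exact_mod_cast hq
  obtain ⟨x, hxa⟩ : ∃ x, x = (p1 : ℂ) • a1 + (p2 : ℂ) • a2 := ⟨_, rfl⟩
  have hxb : x = (q1 : ℂ) • b1 + (q2 : ℂ) • b2 := by rw [hxa, hx]
  obtain ⟨y, hy⟩ : ∃ y, y = -(p2 : ℂ) • a1 + (p1 : ℂ) • a2 := ⟨_, rfl⟩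
  obtain ⟨w, hw⟩ : ∃ w, w = -(q2 : ℂ) • b1 + (q1 : ℂ) • b2 := ⟨_, rfl⟩
  have oa' : (inner ℂ a2 a1) = 0 := by rw [← inner_conj_symm, oa]; simp
  have ob' : (inner ℂ b2 b1) = 0 := by rw [← inner_conj_symm, ob]; simp
  have sa1 : (inner ℂ a1 a1) = 1 := by rw [inner_self_eq_norm_sq_to_K, na1]; simp
  have sa2 : (inner ℂ a2 a2) = 1 := by rw [inner_self_eq_norm_sq_to_K, na2]; simp
  have sb1 : (inner ℂ b1 b1) = 1 := by rw [inner_self_eq_norm_sq_to_K, nb1]; simp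
  have sb2 : (inner ℂ b2 b2) = 1 := by rw [inner_self_eq_norm_sq_to_K, nb2]; simp
  have ea1 : a1 = (p1 : ℂ) • x - (p2 : ℂ) • y := by
    rw [hxa, hy]
    have : (p1 : ℂ) • ((p1 : ℂ) • a1 + (p2 : ℂ) • a2) - (p2 : ℂ) • (-(p2 : ℂ) • a1 + (p1 : ℂ) • a2) =
      ((p1 : ℂ) ^ 2 + (p2 : ℂ) ^ 2) • a1 := by module
    rw [this, hpC, one_smul]
  have ea2 : a2 = (p2 : ℂ) • x + (p1 : ℂ) • y := by
    rw [hxa, hy]
    have : (p2 : ℂ) • ((p1 : ℂ) • a1 + (p2 : ℂ) • a2) + (p1 : ℂ) • (-(p2 : ℂ) • a1 + (p1 : ℂ) • a2) =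
      ((p1 : ℂ) ^ 2 + (p2 : ℂ) ^ 2) • a2 := by module
    rw [this, hpC, one_smul]
  have eb1 : b1 = (q1 : ℂ) • x - (q2 : ℂ) • w := by
    rw [hxb, hw]
    have : (q1 : ℂ) • ((q1 : ℂ) • b1 + (q2 : ℂ) • b2) - (q2 : ℂ) • (-(q2 : ℂ) • b1 + (q1 : ℂ) • b2) =
      ((q1 : ℂ) ^ 2 + (q2 : ℂ) ^ 2) • b1 := by module
    rw [this, hqC, one_smul]
  have eb2 : b2 = (q2 : ℂ) • x + (q1 : ℂ) • w := by
    rw [hxb, hw]
    have : (q2 : ℂ) • ((q1 : ℂ) • b1 + (q2 : ℂ) • b2) + (q1 : ℂ) • (-(q2 : ℂ) • b1 + (q1 : ℂ) • b2) =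
      ((q1 : ℂ) ^ 2 + (q2 : ℂ) ^ 2) • b2 := by module
    rw [this, hqC, one_smul]
  have nx : ‖x‖ = 1 := by
    rw [hxa, norm_comb na1 na2 oa, Complex.norm_real, Complex.norm_real, Real.norm_eq_abs,
      Real.norm_eq_abs, sq_abs, sq_abs, hp, Real.sqrt_one]
  have ny : ‖y‖ = 1 := by
    rw [hy, norm_comb na1 na2 oa, norm_neg, Complex.norm_real, Complex.norm_real,
      Real.norm_eq_abs, Real.norm_eq_abs, sq_abs, sq_abs, add_comm, hp, Real.sqrt_one]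
  have nw : ‖w‖ = 1 := by
    rw [hw, norm_comb nb1 nb2 ob, norm_neg, Complex.norm_real, Complex.norm_real,
      Real.norm_eq_abs, Real.norm_eq_abs, sq_abs, sq_abs, add_comm, hq, Real.sqrt_one]
  have sx : (inner ℂ x x) = 1 := by rw [inner_self_eq_norm_sq_to_K, nx]; simp
  have oyx : (inner ℂ y x) = 0 := by
    rw [hy, hxa, inner_add_left, inner_add_right, inner_add_right, inner_smul_left, inner_smul_left,
      inner_smul_left, inner_smul_left, inner_smul_right, inner_smul_right, inner_smul_right,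
      inner_smul_right, sa1, sa2, oa, oa']
    simp
    ring
  have oxw : (inner ℂ x w) = 0 := by
    rw [hw, hxb, inner_add_left, inner_add_right, inner_add_right, inner_smul_left, inner_smul_left,
      inner_smul_left, inner_smul_left, inner_smul_right, inner_smul_right, inner_smul_right,
      inner_smul_right, sb1, sb2, ob, ob']
    simp
    ring
  obtain ⟨κ, hκ⟩ : ∃ κ, κ = (inner ℂ y w) := ⟨_, rfl⟩
  obtain ⟨k, hk⟩ : ∃ k, k = κ.re := ⟨_, rfl⟩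
  have hk1 : |k| ≤ 1 := by
    rw [hk, hκ]
    refine (Complex.abs_re_le_norm _).trans ?_
    refine (norm_inner_le_norm _ _).trans ?_
    rw [ny, nw, one_mul]
  have k11 : (inner ℂ a1 b1) = p1 * q1 + p2 * q2 * κ := by
    rw [ea1, eb1, inner_sub_left, inner_sub_right, inner_sub_right, inner_smul_left,
      inner_smul_left, inner_smul_left, inner_smul_left, inner_smul_right, inner_smul_right,
      inner_smul_right, inner_smul_right, sx, oyx, oxw, ← hκ]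
    simp
    ring
  have k12 : (inner ℂ a1 b2) = p1 * q2 - p2 * q1 * κ := by
    rw [ea1, eb2, inner_sub_left, inner_add_right, inner_add_right, inner_smul_left,
      inner_smul_left, inner_smul_left, inner_smul_left, inner_smul_right, inner_smul_right,
      inner_smul_right, inner_smul_right, sx, oyx, oxw, ← hκ]
    simp
    ring
  have k21 : (inner ℂ a2 b1) = p2 * q1 - p1 * q2 * κ := by
    rw [ea2, eb1, inner_add_left, inner_sub_right, inner_sub_right, inner_smul_left,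
      inner_smul_left, inner_smul_left, inner_smul_left, inner_smul_right, inner_smul_right,
      inner_smul_right, inner_smul_right, sx, oyx, oxw, ← hκ]
    simp
    ring
  have k22 : (inner ℂ a2 b2) = p2 * q2 + p1 * q1 * κ := by
    rw [ea2, eb2, inner_add_left, inner_add_right, inner_add_right, inner_smul_left,
      inner_smul_left, inner_smul_left, inner_smul_left, inner_smul_right, inner_smul_right,
      inner_smul_right, inner_smul_right, sx, oyx, oxw, ← hκ]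
    simp
    ring
  set C := A - B with hC
  -- matrix entries of `C`
  have cab : ∀ {a b : E} {α β : ℂ}, adjoint A a = (starRingEnd ℂ α) • a → B b = β • b →
      (inner ℂ a (C b)) = (α - β) * (inner ℂ a b) := by
    intro a b α β h1 h2
    rw [hC, sub_apply, inner_sub_right, h2, ← adjoint_inner_left, h1, inner_smul_left,
      inner_smul_right, Complex.conj_conj]
    ring
  have cba : ∀ {a b : E} {α β : ℂ}, A a = α • a → adjoint B b = (starRingEnd ℂ β) • b →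
      (inner ℂ b (C a)) = (α - β) * (inner ℂ b a) := by
    intro a b α β h1 h2
    rw [hC, sub_apply, inner_sub_right, h1, ← adjoint_inner_left B, h2, inner_smul_left,
      inner_smul_right, Complex.conj_conj]
    ring
  have hre : ∀ z : ℂ, z + starRingEnd ℂ z = 2 * (z.re : ℂ) := by
    intro z
    rw [Complex.re_eq_add_conj]; ring
  -- the compressed real matrix
  have hN := two_by_two (n11 := (α1 - β1) * ((p1 * q1 + k * (p2 * q2) : ℝ) : ℂ))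
    (n12 := (α1 - β2) * ((p1 * q2 - k * (p2 * q1) : ℝ) : ℂ))
    (n21 := (α2 - β1) * ((p2 * q1 - k * (p1 * q2) : ℝ) : ℂ))
    (n22 := (α2 - β2) * ((p2 * q2 + k * (p1 * q1) : ℝ) : ℂ)) (τ := ‖C‖) (by
    intro s1 s2 t1 t2
    have e1 : (inner ℂ (s1 • a1 + s2 • a2) (C (t1 • b1 + t2 • b2))) +
        (inner ℂ ((starRingEnd ℂ t1) • b1 + (starRingEnd ℂ t2) • b2) (C ((starRingEnd ℂ s1) • a1 + (starRingEnd ℂ s2) • a2))) =
        2 * (starRingEnd ℂ s1 * ((α1 - β1) * ((p1 * q1 + k * (p2 * q2) : ℝ) : ℂ) * t1 +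
          (α1 - β2) * ((p1 * q2 - k * (p2 * q1) : ℝ) : ℂ) * t2) +
          starRingEnd ℂ s2 * ((α2 - β1) * ((p2 * q1 - k * (p1 * q2) : ℝ) : ℂ) * t1 +
          (α2 - β2) * ((p2 * q2 + k * (p1 * q1) : ℝ) : ℂ) * t2)) := by
      have hb : ∀ a b : E, (inner ℂ b a) = starRingEnd ℂ (inner ℂ a b) := fun a b => (inner_conj_symm _ _).symm
      simp only [map_add, map_smul, inner_add_left, inner_add_right, inner_smul_left,
        inner_smul_right, cab hA1' hB1, cab hA1' hB2, cab hA2' hB1, cab hA2' hB2,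
        cba hA1 hB1', cba hA1 hB2', cba hA2 hB1', cba hA2 hB2', Complex.conj_conj,
        hb a1 b1, hb a1 b2, hb a2 b1, hb a2 b2, k11, k12, k21, k22, hk]
      have hκ2 : starRingEnd ℂ κ = 2 * (κ.re : ℂ) - κ := by rw [← hre κ]; ring
      simp only [map_sub, map_mul, Complex.conj_ofReal, hκ2]
      push_cast
      ring
    have e2 : ‖(inner ℂ (s1 • a1 + s2 • a2) (C (t1 • b1 + t2 • b2)))‖ ≤
        ‖C‖ * (Real.sqrt (‖s1‖ ^ 2 + ‖s2‖ ^ 2) * Real.sqrt (‖t1‖ ^ 2 + ‖t2‖ ^ 2)) := by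
      refine (norm_inner_le_norm _ _).trans ?_
      rw [norm_comb na1 na2 oa, ← mul_assoc, mul_comm ‖C‖, mul_assoc]
      refine mul_le_mul_of_nonneg_left ?_ (Real.sqrt_nonneg _)
      refine (C.le_opNorm _).trans_eq ?_
      rw [norm_comb nb1 nb2 ob]
    have e3 : ‖(inner ℂ ((starRingEnd ℂ t1) • b1 + (starRingEnd ℂ t2) • b2) (C ((starRingEnd ℂ s1) • a1 + (starRingEnd ℂ s2) • a2)))‖ ≤
        ‖C‖ * (Real.sqrt (‖s1‖ ^ 2 + ‖s2‖ ^ 2) * Real.sqrt (‖t1‖ ^ 2 + ‖t2‖ ^ 2)) := by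
      refine (norm_inner_le_norm _ _).trans ?_
      rw [norm_comb nb1 nb2 ob, mul_comm (Real.sqrt (‖s1‖ ^ 2 + ‖s2‖ ^ 2)), ← mul_assoc,
        mul_comm ‖C‖, mul_assoc, RCLike.norm_conj, RCLike.norm_conj]
      refine mul_le_mul_of_nonneg_left ?_ (Real.sqrt_nonneg _)
      refine (C.le_opNorm _).trans_eq ?_
      rw [norm_comb na1 na2 oa, RCLike.norm_conj, RCLike.norm_conj]
    have e4 := (norm_add_le ((inner ℂ (s1 • a1 + s2 • a2) (C (t1 • b1 + t2 • b2))))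
      ((inner ℂ ((starRingEnd ℂ t1) • b1 + (starRingEnd ℂ t2) • b2) (C ((starRingEnd ℂ s1) • a1 + (starRingEnd ℂ s2) • a2))))).trans (add_le_add e2 e3)
    rw [e1, norm_mul, Complex.norm_two] at e4
    linarith)
  -- the vector `x`
  have hCx : ‖C x‖ ^ 2 ≤ ‖C‖ ^ 2 := by
    have := C.le_opNorm x
    rw [nx, mul_one] at this
    exact pow_le_pow_left₀ (norm_nonneg _) this 2
  have hCx' : ‖adjoint C x‖ ^ 2 ≤ ‖C‖ ^ 2 := by
    have := (adjoint C).le_opNorm x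
    rw [nx, mul_one, LinearIsometryEquiv.norm_map] at this
    exact pow_le_pow_left₀ (norm_nonneg _) this 2
  have gen : ∀ c1 c2 d1 d2 : ℂ, ‖((p1 * c1) • a1 + (p2 * c2) • a2) -
      ((q1 * d1) • b1 + (q2 * d2) • b2)‖ ^ 2 = p1 ^ 2 * ‖c1‖ ^ 2 + p2 ^ 2 * ‖c2‖ ^ 2 +
      q1 ^ 2 * ‖d1‖ ^ 2 + q2 ^ 2 * ‖d2‖ ^ 2 -
      2 * (p1 * q1 * (starRingEnd ℂ c1 * d1 * (p1 * q1 + p2 * q2 * κ)) +
        p1 * q2 * (starRingEnd ℂ c1 * d2 * (p1 * q2 - p2 * q1 * κ)) +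
        p2 * q1 * (starRingEnd ℂ c2 * d1 * (p2 * q1 - p1 * q2 * κ)) +
        p2 * q2 * (starRingEnd ℂ c2 * d2 * (p2 * q2 + p1 * q1 * κ))).re := by
    intro c1 c2 d1 d2
    have h := @norm_sub_sq ℂ E _ _ _ ((p1 * c1) • a1 + (p2 * c2) • a2)
      ((q1 * d1) • b1 + (q2 * d2) • b2)
    rw [h, norm_comb na1 na2 oa, norm_comb nb1 nb2 ob, Real.sq_sqrt (by positivity),
      Real.sq_sqrt (by positivity), norm_mul, norm_mul, norm_mul, norm_mul, Complex.norm_real,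
      Complex.norm_real, Complex.norm_real, Complex.norm_real, Real.norm_eq_abs, Real.norm_eq_abs,
      Real.norm_eq_abs, Real.norm_eq_abs, mul_pow, mul_pow, mul_pow, mul_pow, sq_abs, sq_abs,
      sq_abs, sq_abs]
    have h2 : (inner ℂ ((p1 * c1) • a1 + (p2 * c2) • a2) ((q1 * d1) • b1 + (q2 * d2) • b2)) =
        (p1 * q1 * (starRingEnd ℂ c1 * d1 * (p1 * q1 + p2 * q2 * κ)) +
        p1 * q2 * (starRingEnd ℂ c1 * d2 * (p1 * q2 - p2 * q1 * κ)) +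
        p2 * q1 * (starRingEnd ℂ c2 * d1 * (p2 * q1 - p1 * q2 * κ)) +
        p2 * q2 * (starRingEnd ℂ c2 * d2 * (p2 * q2 + p1 * q1 * κ))) := by
      simp only [inner_add_left, inner_add_right, inner_smul_left,
        inner_smul_right, k11, k12, k21, k22, map_mul, Complex.conj_ofReal]
      ring
    rw [h2]
    simp only [RCLike.re_eq_complex_re]
    ring
  have ex1 : C x = ((p1 * α1) • a1 + (p2 * α2) • a2) - ((q1 * β1) • b1 + (q2 * β2) • b2) := by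
    have g1 : A x = (p1 * α1) • a1 + (p2 * α2) • a2 := by
      rw [hxa, map_add, map_smul, map_smul, hA1, hA2, smul_smul, smul_smul]
    have g2 : B x = (q1 * β1) • b1 + (q2 * β2) • b2 := by
      rw [hxb, map_add, map_smul, map_smul, hB1, hB2, smul_smul, smul_smul]
    rw [hC, sub_apply, g1, g2]
  have ex2 : adjoint C x = ((p1 * starRingEnd ℂ α1) • a1 + (p2 * starRingEnd ℂ α2) • a2) -
      ((q1 * starRingEnd ℂ β1) • b1 + (q2 * starRingEnd ℂ β2) • b2) := by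
    have g1 : adjoint A x = (p1 * starRingEnd ℂ α1) • a1 + (p2 * starRingEnd ℂ α2) • a2 := by
      rw [hxa, map_add, map_smul, map_smul, hA1', hA2', smul_smul, smul_smul]
    have g2 : adjoint B x = (q1 * starRingEnd ℂ β1) • b1 + (q2 * starRingEnd ℂ β2) • b2 := by
      rw [hxb, map_add, map_smul, map_smul, hB1', hB2', smul_smul, smul_smul]
    rw [hC, map_sub, sub_apply, g1, g2]
  rw [ex1, gen] at hCx
  rw [ex2, gen] at hCx'
  have hX : p1 * q1 * (p1 * q1 + k * (p2 * q2)) * ‖α1 - β1‖ ^ 2 +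
      p1 * q2 * (p1 * q2 - k * (p2 * q1)) * ‖α1 - β2‖ ^ 2 +
      p2 * q1 * (p2 * q1 - k * (p1 * q2)) * ‖α2 - β1‖ ^ 2 +
      p2 * q2 * (p2 * q2 + k * (p1 * q1)) * ‖α2 - β2‖ ^ 2 ≤ ‖C‖ ^ 2 := by
    rw [hk]
    simp only [← Complex.normSq_eq_norm_sq, Complex.normSq_apply, add_re, mul_re, mul_im,
      conj_re, conj_im, sub_re, sub_im, add_im, ofReal_re, ofReal_im] at hCx hCx' ⊢
    linear_combination (1 / 2) * hCx + (1 / 2) * hCx' +
      (p1 ^ 2 * (α1.re * α1.re + α1.im * α1.im) + p2 ^ 2 * (α2.re * α2.re + α2.im * α2.im)) * hq +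
      (q1 ^ 2 * (β1.re * β1.re + β1.im * β1.im) + q2 ^ 2 * (β2.re * β2.re + β2.im * β2.im)) * hp
  have hr : ∀ (z : ℂ) (r : ℝ), ‖z * (r : ℂ)‖ ^ 2 = r ^ 2 * ‖z‖ ^ 2 := by
    intro z r
    rw [norm_mul, Complex.norm_real, Real.norm_eq_abs, mul_pow, sq_abs]; ring
  obtain ⟨hN1, hN2⟩ := hN
  rw [hr, hr, hr, hr] at hN1 hN2
  refine core_cx (z11 := α1 - β1) (z12 := α1 - β2) (z21 := α2 - β1) (z22 := α2 - β2) hp hq hp1 hp2
    hq1 hq2 hk1 (by ring) h11 h12 h21 h22 hN1 ?_ hX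
  convert hN2 using 4
  push_cast
  ring

/-- the case of two eigenvectors on each side -/
theorem two_two (A B : E →L[ℂ] E) {a1 a2 b1 b2 x : E} {α1 α2 β1 β2 u1 u2 v1 v2 : ℂ} {m : ℝ}
    (na1 : ‖a1‖ = 1) (na2 : ‖a2‖ = 1) (oa : (inner ℂ a1 a2) = 0)
    (nb1 : ‖b1‖ = 1) (nb2 : ‖b2‖ = 1) (ob : (inner ℂ b1 b2) = 0) (nx : ‖x‖ = 1)
    (hxa : x = u1 • a1 + u2 • a2) (hxb : x = v1 • b1 + v2 • b2)
    (hA1 : A a1 = α1 • a1) (hA2 : A a2 = α2 • a2)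
    (hA1' : adjoint A a1 = (starRingEnd ℂ α1) • a1) (hA2' : adjoint A a2 = (starRingEnd ℂ α2) • a2)
    (hB1 : B b1 = β1 • b1) (hB2 : B b2 = β2 • b2)
    (hB1' : adjoint B b1 = (starRingEnd ℂ β1) • b1) (hB2' : adjoint B b2 = (starRingEnd ℂ β2) • b2)
    (hm : 0 < m)
    (h11 : m ≤ ‖α1 - β1‖) (h12 : m ≤ ‖α1 - β2‖) (h21 : m ≤ ‖α2 - β1‖) (h22 : m ≤ ‖α2 - β2‖) :
    27 / 28 * m ^ 2 ≤ ‖A - B‖ ^ 2 := by
  obtain ⟨ζ1, n1, e1⟩ := exists_phase u1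
  obtain ⟨ζ2, n2, e2⟩ := exists_phase u2
  obtain ⟨ξ1, n3, e3⟩ := exists_phase v1
  obtain ⟨ξ2, n4, e4⟩ := exists_phase v2
  have hp : ‖u1‖ ^ 2 + ‖u2‖ ^ 2 = 1 := by
    have h := norm_comb na1 na2 oa u1 u2
    rw [← hxa, nx] at h
    rw [← Real.sq_sqrt (show 0 ≤ ‖u1‖ ^ 2 + ‖u2‖ ^ 2 by positivity), ← h, one_pow]
  have hq : ‖v1‖ ^ 2 + ‖v2‖ ^ 2 = 1 := by
    have h := norm_comb nb1 nb2 ob v1 v2
    rw [← hxb, nx] at h
    rw [← Real.sq_sqrt (show 0 ≤ ‖v1‖ ^ 2 + ‖v2‖ ^ 2 by positivity), ← h, one_pow]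
  have hmC : ((m : ℝ) : ℂ) ≠ 0 := by exact_mod_cast hm.ne'
  have sc : ∀ (T : E →L[ℂ] E) (e : E) (ζ μ : ℂ), T e = μ • e →
      (((m⁻¹ : ℝ) : ℂ) • T) (ζ • e) = (((m⁻¹ : ℝ) : ℂ) * μ) • (ζ • e) := by
    intro T e ζ μ h
    rw [smul_apply, map_smul, h, smul_smul, smul_smul, smul_smul]
    congr 1
    ring
  have sc' : ∀ (T : E →L[ℂ] E) (e : E) (ζ μ : ℂ), adjoint T e = (starRingEnd ℂ μ) • e →
      adjoint (((m⁻¹ : ℝ) : ℂ) • T) (ζ • e) = (starRingEnd ℂ (((m⁻¹ : ℝ) : ℂ) * μ)) • (ζ • e) := by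
    intro T e ζ μ h
    rw [LinearIsometryEquiv.map_smulₛₗ, smul_apply, map_smul, h, smul_smul, smul_smul, smul_smul,
      map_mul]
    congr 1
    ring
  have sep : ∀ α β : ℂ, m ≤ ‖α - β‖ → 1 ≤ ‖((m⁻¹ : ℝ) : ℂ) * α - ((m⁻¹ : ℝ) : ℂ) * β‖ := by
    intro α β h
    rw [← mul_sub, norm_mul, Complex.norm_real, Real.norm_eq_abs, abs_of_pos (inv_pos.mpr hm),
      inv_mul_eq_div, le_div_iff₀ hm, one_mul]
    exact h
  have ns : ∀ (ζ : ℂ) (e : E), ‖ζ‖ = 1 → ‖e‖ = 1 → ‖ζ • e‖ = 1 := by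
    intro ζ e h1 h2
    rw [norm_smul, h1, h2, one_mul]
  have os : ∀ (ζ ξ : ℂ) (e f : E), (inner ℂ e f) = 0 → (inner ℂ (ζ • e) (ξ • f)) = 0 := by
    intro ζ ξ e f h
    rw [inner_smul_left, inner_smul_right, h, mul_zero, mul_zero]
  have h := two_real (((m⁻¹ : ℝ) : ℂ) • A) (((m⁻¹ : ℝ) : ℂ) • B) (ns _ _ n1 na1) (ns _ _ n2 na2)
    (os _ _ _ _ oa) (ns _ _ n3 nb1) (ns _ _ n4 nb2) (os _ _ _ _ ob) (norm_nonneg u1)
    (norm_nonneg u2) (norm_nonneg v1) (norm_nonneg v2) hp hq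
    (by rw [smul_smul, smul_smul, smul_smul, smul_smul, e1, e2, e3, e4, ← hxa, ← hxb])
    (sc _ _ _ _ hA1) (sc _ _ _ _ hA2) (sc' _ _ _ _ hA1') (sc' _ _ _ _ hA2')
    (sc _ _ _ _ hB1) (sc _ _ _ _ hB2) (sc' _ _ _ _ hB1') (sc' _ _ _ _ hB2')
    (sep _ _ h11) (sep _ _ h12) (sep _ _ h21) (sep _ _ h22)
  rw [← smul_sub, norm_smul, Complex.norm_real, Real.norm_eq_abs, abs_of_pos (inv_pos.mpr hm),
    mul_pow, inv_pow, inv_mul_eq_div, le_div_iff₀ (by positivity)] at h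
  exact h

end SpecVar.CThree
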