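import Mathlib

/-!
# Polynomial inequalities for the constant `c₃`
-/

namespace SpecVar.CThree

/-- the discriminant identity `27 θ² (14 + θ)² ≤ (28 + 28 θ + 27 θ²)(θ² + 56 θ + 28)` -/
theorem J1 {θ : ℝ} (hθ : 0 ≤ θ) (ε : ℝ) :
    28 * (27 * ε * θ ^ 2 - θ - θ ^ 2) * (1 - ε) * (1 + θ) - (27 * ε * θ ^ 2 - θ - θ ^ 2) ^ 2 ≤
      28 * (1 + θ) ^ 2 * (1 + θ + θ * ε) := by
  have h1 : 0 < 28 * (1 + θ) + 27 * θ ^ 2 := by positivity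
  -- (28(1+θ)+27θ²) * (rhs - lhs) = 27 θ² ((28(1+θ)+27θ²) ε - (1+θ)(14+θ))² + 196 (1+θ)² (θ-2)² (4θ+1)
  have h2 : (28 * (1 + θ) + 27 * θ ^ 2) * (28 * (1 + θ) ^ 2 * (1 + θ + θ * ε) -
      (28 * (27 * ε * θ ^ 2 - θ - θ ^ 2) * (1 - ε) * (1 + θ) - (27 * ε * θ ^ 2 - θ - θ ^ 2) ^ 2)) =
      27 * θ ^ 2 * ((28 * (1 + θ) + 27 * θ ^ 2) * ε - (1 + θ) * (14 + θ)) ^ 2 +
      196 * (1 + θ) ^ 2 * (θ - 2) ^ 2 * (4 * θ + 1) := by ring
  have h3 : 0 ≤ 27 * θ ^ 2 * ((28 * (1 + θ) + 27 * θ ^ 2) * ε - (1 + θ) * (14 + θ)) ^ 2 +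
      196 * (1 + θ) ^ 2 * (θ - 2) ^ 2 * (4 * θ + 1) := by positivity
  rw [← h2] at h3
  have := nonneg_of_mul_nonneg_right h3 h1
  linarith

theorem J2aux {s ε n : ℝ} (hs : 0 ≤ s) (hε : 0 ≤ ε) (hε1 : ε ≤ 1)
    (hn : n = 7 * (1 - ε) ^ 2 - 1) (h : s ≤ n) :
    (27 * ε - 1) * s * n - s * (1 + ε) ≤ 14 * (1 - ε) * (1 + ε) * (1 + ε + s) := by
  have e : (27 * ε - 1) * s * n - s * (1 + ε) - 14 * (1 - ε) * (1 + ε) * (1 + ε + s) =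
    s * (-21 + 175 * ε - 371 * ε ^ 2 + 189 * ε ^ 3) - 14 * (1 - ε) * (1 + ε) ^ 2 := by
    rw [hn]; ring
  have h4 : -21 + 175 * ε - 371 * ε ^ 2 + 189 * ε ^ 3 ≤ 4 := by
    nlinarith [mul_nonneg hε (sq_nonneg (ε - 0.31)),
      mul_nonneg (by linarith : 0 ≤ 1 - ε) (sq_nonneg (ε - 0.31))]
  have hp : 0 ≤ 14 * (1 - ε) * (1 + ε) ^ 2 := mul_nonneg (by linarith) (by positivity)
  by_cases hb : -21 + 175 * ε - 371 * ε ^ 2 + 189 * ε ^ 3 ≤ 0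
  · nlinarith [mul_nonneg hs (by linarith : 0 ≤ -(-21 + 175 * ε - 371 * ε ^ 2 + 189 * ε ^ 3))]
  · push Not at hb
    have h18 : 0.18 ≤ ε := by
      by_contra h
      push Not at h
      nlinarith [mul_nonneg hε (by linarith : 0 ≤ 0.18 - ε),
        mul_nonneg (mul_nonneg hε hε) (by linarith : 0 ≤ 0.18 - ε)]
    have h1 : s * (-21 + 175 * ε - 371 * ε ^ 2 + 189 * ε ^ 3) ≤ n * 4 :=
      mul_le_mul h h4 hb.le (hs.trans h)
    have hn0 : 0 ≤ n := hs.trans h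
    have h3 : n * 4 ≤ 14 * (1 - ε) * (1 + ε) ^ 2 := by
      rw [hn] at hn0 ⊢
      nlinarith [mul_nonneg (by linarith : 0 ≤ ε - 0.18) (by linarith : 0 ≤ 1 - ε)]
    linarith

theorem J2 {θ ε : ℝ} (hθ : 0 ≤ θ) (hε : 0 ≤ ε) (hε1 : ε ≤ 1)
    (h : θ * (1 + ε) ≤ 7 * (1 - ε) ^ 2 - 1) :
    27 * ε * θ ^ 2 - θ - θ ^ 2 ≤ 14 * (1 - ε) * (1 + θ) := by
  by_cases h27 : 27 * ε ≤ 1
  · have : 27 * ε * θ ^ 2 ≤ 1 * θ ^ 2 := by gcongr
    nlinarith [mul_nonneg (by linarith : 0 ≤ 1 - ε) (by linarith : 0 ≤ 1 + θ)]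
  · push Not at h27
    set n := 7 * (1 - ε) ^ 2 - 1 with hn
    set s := θ * (1 + ε) with hs
    have hs0 : 0 ≤ s := by positivity
    have h1 : (27 * ε - 1) * s ^ 2 ≤ (27 * ε - 1) * (s * n) := by
      have : s * s ≤ s * n := mul_le_mul_of_nonneg_left h hs0
      nlinarith
    have h2 := J2aux hs0 hε hε1 hn h
    have h3 : (1 + ε) ^ 2 * (27 * ε * θ ^ 2 - θ - θ ^ 2) ≤
        (1 + ε) ^ 2 * (14 * (1 - ε) * (1 + θ)) := by
      have e1 : (1 + ε) ^ 2 * (27 * ε * θ ^ 2 - θ - θ ^ 2) =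
        (27 * ε - 1) * s ^ 2 - s * (1 + ε) := by rw [hs]; ring
      have e2 : (1 + ε) ^ 2 * (14 * (1 - ε) * (1 + θ)) =
        14 * (1 - ε) * (1 + ε) * (1 + ε + s) := by rw [hs]; ring
      rw [e1, e2]
      nlinarith
    exact le_of_mul_le_mul_left h3 (by positivity)

theorem J {u g ε : ℝ} (hu : 0 ≤ u) (hg : 0 ≤ g) (hε : 0 ≤ ε) (hs : u + g + ε = 1)
    (h28 : 1 ≤ 28 * u * g) :
    0 ≤ u * (1 + ε) ^ 2 + u * (1 + ε) * (1 + g) * (28 * u * g - 1) -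
      ε * (28 * u * g - 1) ^ 2 := by
  by_contra hneg
  push Not at hneg
  have h1 : 0 < 1 + ε := by linarith
  obtain ⟨θ, hθ⟩ : ∃ θ : ℝ, θ * (1 + ε) = 28 * u * g - 1 :=
    ⟨(28 * u * g - 1) / (1 + ε), by field_simp⟩
  have hθ0 : 0 ≤ θ := by
    have : 0 ≤ θ * (1 + ε) := by rw [hθ]; linarith
    exact nonneg_of_mul_nonneg_left this h1
  rw [← hθ] at hneg
  have h2 : (1 + ε) ^ 2 * (u + u * (1 + g) * θ - ε * θ ^ 2) < 0 := by nlinarith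
  have h3 : u + u * (1 + g) * θ - ε * θ ^ 2 < 0 := by
    by_contra h
    push Not at h
    have : 0 ≤ (1 + ε) ^ 2 * (u + u * (1 + g) * θ - ε * θ ^ 2) := by positivity
    linarith
  set V := 27 * ε * θ ^ 2 - θ - θ ^ 2 with hV
  set X := 28 * u * (1 + θ) with hX
  have h4 : X < V := by
    have : 28 * (u + u * (1 + g) * θ - ε * θ ^ 2) = X - V := by
      rw [hX, hV]
      linear_combination (-θ) * hθ
    linarith
  have h5 := J1 hθ0 ε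
  rw [← hV] at h5
  have h6 : (V - X) * (28 * (1 - ε) * (1 + θ) - V - X) ≤ 0 := by
    have e1 : X * (28 * (1 - ε) * (1 + θ)) - X ^ 2 = 28 * (1 + θ) ^ 2 * (1 + θ + θ * ε) := by
      rw [hX]
      have e3 : 1 - ε = u + g := by linarith
      have e4 : 1 + θ + θ * ε = 28 * u * g := by linarith
      rw [e3, e4]; ring
    nlinarith
  have h7 : 28 * (1 - ε) * (1 + θ) - V - X ≤ 0 := by
    by_contra h
    push Not at h
    have : 0 < (V - X) * (28 * (1 - ε) * (1 + θ) - V - X) := mul_pos (by linarith) h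
    linarith
  have h8 : θ * (1 + ε) ≤ 7 * (1 - ε) ^ 2 - 1 := by
    rw [hθ]
    have e3 : 1 - ε = u + g := by linarith
    rw [e3]
    nlinarith [sq_nonneg (u - g)]
  have h9 := J2 hθ0 hε (by linarith) h8
  linarith

/-- the bound for `|det|²` after eliminating the phases -/
noncomputable def D2 (w w' y1 y2 y3 y4 : ℝ) : ℝ :=
  w ^ 2 * (y1 * y2) + w' ^ 2 * (y3 * y4) +
    w * w' / 4 * (2 * (y1 + y2) * (y3 + y4) - (y1 - y2) ^ 2 - (y3 - y4) ^ 2)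

theorem base0 {k ε D : ℝ} (hε0 : 0 ≤ ε) (hεk : ε ≤ k) (hD : 0 ≤ D)
    (hk : k ^ 2 ≤ 13 / 14) :
    0 ≤ 1 / 28 * (27 / 28 - k ^ 2) - ε * (k * ε - 27 / 28 * ε) * D +
      (k - ε * ε) * (ε * ε) / 4 * D ^ 2 := by
  have hk0 : 0 ≤ k := hε0.trans hεk
  have hk1 : k ≤ 27 / 28 := by
    by_contra h
    push Not at h
    nlinarith
  have h1 : 0 ≤ (27 / 28 - k) * (ε ^ 2 * D) := mul_nonneg (by linarith) (by positivity)
  have h2 : 0 ≤ k - ε * ε := by nlinarith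
  have h3 : 0 ≤ (k - ε * ε) * (ε * ε) / 4 * D ^ 2 := by positivity
  nlinarith

theorem base1 {k ε D : ℝ} (hε0 : 0 ≤ ε) (hεk : ε ≤ k)
    (hk : k ^ 2 ≤ 13 / 14) (hF : 1 + k ^ 2 + ε ^ 2 * D ≤ 27 / 14) :
    0 ≤ 1 / 28 * (27 / 28 - k ^ 2) - ε * (k * (ε + 1 - k) - 27 / 28 * ε) * D +
      (k - (ε + 1 - k) * ε) * ((ε + 1 - k) * ε) / 4 * D ^ 2 := by
  have hk0 : 0 ≤ k := hε0.trans hεk
  have hk1 : k ≤ 27 / 28 := by
    by_contra h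
    push Not at h
    nlinarith
  have hw : k - (ε + 1 - k) * ε = (k - ε) * (1 + ε) := by ring
  rw [hw]
  by_cases hc : (1 - k) * (k - ε) ≤ 1 / 28
  · set R := 1 - (1 - k) * (k - ε) with hR
    have hRT : 27 / 28 ≤ R := by rw [hR]; linarith
    have h1 : 0 ≤ (R - 27 / 28) * (R + 27 / 28 - (1 + k ^ 2 + ε ^ 2 * D)) :=
      mul_nonneg (by linarith) (by linarith)
    have h2 : 0 ≤ (k - ε) * (1 + ε) * (((1 - k) - ε * D / 2) ^ 2 +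
        ((ε + 1 - k) * ε - ε ^ 2) * D ^ 2 / 4) := by
      have h3 : 0 ≤ (ε + 1 - k) * ε - ε ^ 2 := by nlinarith
      have h4 : 0 ≤ k - ε := by linarith
      positivity
    have h5 : 1 / 28 * (27 / 28 - k ^ 2) - ε * (k * (ε + 1 - k) - 27 / 28 * ε) * D +
        (k - ε) * (1 + ε) * ((ε + 1 - k) * ε) / 4 * D ^ 2 =
        (R - 27 / 28) * (R + 27 / 28 - (1 + k ^ 2 + ε ^ 2 * D)) +
        (k - ε) * (1 + ε) * (((1 - k) - ε * D / 2) ^ 2 +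
        ((ε + 1 - k) * ε - ε ^ 2) * D ^ 2 / 4) := by
      rw [hR]; ring
    rw [h5]
    linarith
  · push Not at hc
    have hJ := J (u := 1 - k) (g := k - ε) (ε := ε) (by linarith) (by linarith) hε0 (by ring)
      (by nlinarith)
    have hJ' : 28 ^ 2 * (ε * (k * (ε + 1 - k) - 27 / 28 * ε) ^ 2) ≤
        28 ^ 2 * (1 / 28 * (27 / 28 - k ^ 2) * ((k - ε) * (1 + ε) * (ε + 1 - k))) := by
      rw [← sub_nonneg]
      convert hJ using 1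
      ring
    have hA : 0 < 1 / 28 * (27 / 28 - k ^ 2) := by nlinarith
    set A := 1 / 28 * (27 / 28 - k ^ 2) with hAdef
    set B := k * (ε + 1 - k) - 27 / 28 * ε with hB
    have h6 : ε * B ^ 2 ≤ A * ((k - ε) * (1 + ε) * (ε + 1 - k)) :=
      le_of_mul_le_mul_left hJ' (by norm_num)
    have h7 : 4 * A * (A - ε * B * D + (k - ε) * (1 + ε) * ((ε + 1 - k) * ε) / 4 * D ^ 2) =
        (2 * A - ε * B * D) ^ 2 +
          (A * ((k - ε) * (1 + ε) * (ε + 1 - k)) - ε * B ^ 2) * ε * D ^ 2 := by ring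
    have h8 : 0 ≤ (A * ((k - ε) * (1 + ε) * (ε + 1 - k)) - ε * B ^ 2) * ε * D ^ 2 := by
      have : 0 ≤ A * ((k - ε) * (1 + ε) * (ε + 1 - k)) - ε * B ^ 2 := by linarith
      positivity
    have h9 : 0 ≤ 4 * A * (A - ε * B * D + (k - ε) * (1 + ε) * ((ε + 1 - k) * ε) / 4 * D ^ 2) := by
      rw [h7]; positivity
    exact nonneg_of_mul_nonneg_right h9 (by positivity)

/-- the base point `y = (1, 1, 1, 1 + D)` -/
theorem base {k γ ε D : ℝ} (hε0 : 0 ≤ ε) (hεk : ε ≤ k) (hγ1 : ε ≤ γ)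
    (hγ2 : γ ≤ ε + 1 - k) (hD : 0 ≤ D) (hF : 1 + k ^ 2 + ε ^ 2 * D ≤ 27 / 14) :
    0 ≤ 27 / 28 * (1 + k ^ 2 + ε ^ 2 * D - 27 / 28) - D2 (k - γ * ε) (γ * ε) 1 1 1 (1 + D) := by
  have hk : k ^ 2 ≤ 13 / 14 := by
    have : 0 ≤ ε ^ 2 * D := by positivity
    linarith
  have hk0 : 0 ≤ k := hε0.trans hεk
  have hk1 : k ≤ 27 / 28 := by
    by_contra h
    push Not at h
    nlinarith
  have h0 := base0 hε0 hεk hD hk
  have h1 := base1 hε0 hεk hk hF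
  have h2 : 27 / 28 * (1 + k ^ 2 + ε ^ 2 * D - 27 / 28) - D2 (k - γ * ε) (γ * ε) 1 1 1 (1 + D) =
      1 / 28 * (27 / 28 - k ^ 2) - ε * (k * γ - 27 / 28 * ε) * D +
      (k - γ * ε) * (γ * ε) / 4 * D ^ 2 := by
    rw [D2]; ring
  rw [h2]
  set G := 1 / 28 * (27 / 28 - k ^ 2) - ε * (k * γ - 27 / 28 * ε) * D +
      (k - γ * ε) * (γ * ε) / 4 * D ^ 2 with hG
  set G0 := 1 / 28 * (27 / 28 - k ^ 2) - ε * (k * ε - 27 / 28 * ε) * D +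
      (k - ε * ε) * (ε * ε) / 4 * D ^ 2 with hG0
  set G1 := 1 / 28 * (27 / 28 - k ^ 2) - ε * (k * (ε + 1 - k) - 27 / 28 * ε) * D +
      (k - (ε + 1 - k) * ε) * ((ε + 1 - k) * ε) / 4 * D ^ 2 with hG1
  have h3 : (1 - k) * G = (ε + 1 - k - γ) * G0 + (γ - ε) * G1 +
      (1 - k) * (γ - ε) * (ε + 1 - k - γ) * (ε ^ 2 * D ^ 2 / 4) := by
    rw [hG, hG0, hG1]; ring
  have h4 : 0 ≤ (1 - k) * G := by
    rw [h3]
    have a1 : 0 ≤ ε + 1 - k - γ := by linarith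
    have a2 : 0 ≤ γ - ε := by linarith
    have a3 : 0 ≤ 1 - k := by linarith
    positivity
  exact nonneg_of_mul_nonneg_right h4 (by linarith)

end SpecVar.CThree
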