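import Pool.Agent.Lib.MP_29a676_an.CThree.Op
import Pool.Agent.Lib.MP_29a676_an.Linear

/-!
# The upper bound `c₃ ≤ √(28/27)`
-/

namespace SpecVar.CThree

open Complex ContinuousLinearMap

variable {E : Type*} [NormedAddCommGroup E] [InnerProductSpace ℂ E] [FiniteDimensional ℂ E]

omit [FiniteDimensional ℂ E] in
/-- an eigenvalue of one operator far away from the whole spectrum of the other -/
theorem le_of_all {n : ℕ} (a : OrthonormalBasis (Fin n) ℂ E) (C : E →L[ℂ] E) (b : E)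
    (hb : ‖b‖ = 1) (δ : Fin n → ℂ) (h : ∀ i, (inner ℂ (a i) (C b)) = δ i * (inner ℂ (a i) b)) {m : ℝ} (hm : 0 ≤ m)
    (hδ : ∀ i, m ≤ ‖δ i‖) : m ≤ ‖C‖ := by
  have h1 : m ^ 2 ≤ ‖C b‖ ^ 2 := by
    rw [← a.sum_sq_norm_inner_right (C b)]
    calc m ^ 2 = ∑ i, m ^ 2 * ‖(inner ℂ (a i) b)‖ ^ 2 := by
          rw [← Finset.mul_sum, a.sum_sq_norm_inner_right, hb]; ring
      _ ≤ ∑ i, ‖(inner ℂ (a i) (C b))‖ ^ 2 := by
          refine Finset.sum_le_sum fun i _ => ?_
          rw [h i, norm_mul, mul_pow]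
          gcongr
          exact hδ i
  have h2 : ‖C b‖ ≤ ‖C‖ := by
    have := C.le_opNorm b
    rwa [hb, mul_one] at this
  have h3 : m ≤ ‖C b‖ := le_of_sq_le_sq h1 (norm_nonneg _)
  exact h3.trans h2

omit [FiniteDimensional ℂ E] in
theorem expand {n : ℕ} (a : OrthonormalBasis (Fin n) ℂ E) (x : E) {S : Finset (Fin n)}
    {i j : Fin n} (hij : i ≠ j) (hS : S = {i, j}) (h : ∀ i, i ∉ S → (inner ℂ (a i) x) = 0) :
    x = (inner ℂ (a i) x) • a i + (inner ℂ (a j) x) • a j := by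
  have h1 := a.sum_repr' x
  rw [← h1]
  conv_lhs => rw [← Finset.sum_subset (Finset.subset_univ S) (by
    intro k _ hk
    rw [h k hk, zero_smul])]
  rw [hS, Finset.sum_pair hij, h1]

/-- `sd (A, B) ≤ √(28/27) ‖A - B‖` in dimension `3`. -/
theorem exists_perm_three (a b : OrthonormalBasis (Fin 3) ℂ E)
    (A B : E →L[ℂ] E) (α β : Fin 3 → ℂ)
    (hA : ∀ i, A (a i) = α i • a i) (hB : ∀ k, B (b k) = β k • b k)
    (hA' : ∀ i, adjoint A (a i) = (starRingEnd ℂ (α i)) • a i)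
    (hB' : ∀ k, adjoint B (b k) = (starRingEnd ℂ (β k)) • b k) :
    ∃ σ : Equiv.Perm (Fin 3), ∀ k, ‖α k - β (σ k)‖ ≤ Real.sqrt (28 / 27) * ‖A - B‖ := by
  classical
  set c := Real.sqrt (28 / 27) with hc
  have hc2 : c ^ 2 = 28 / 27 := Real.sq_sqrt (by norm_num)
  have hc1 : 1 ≤ c := Real.one_le_sqrt.mpr (by norm_num)
  by_contra hcon
  have hall := (Fintype.all_card_le_filter_rel_iff_exists_injective
    (fun i k : Fin 3 => ‖α i - β k‖ ≤ c * ‖A - B‖)).not
  have h1 : ¬ ∃ g : Fin 3 → Fin 3, Function.Injective g ∧ ∀ i, ‖α i - β (g i)‖ ≤ c * ‖A - B‖ := by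
    rintro ⟨g, hg, hg2⟩
    exact hcon ⟨Equiv.ofBijective g (Finite.injective_iff_bijective.mp hg), hg2⟩
  have h2 := hall.mpr h1
  push Not at h2
  obtain ⟨S, hS⟩ := h2
  set R : Finset (Fin 3) := Finset.filter (fun k => ∃ i ∈ S, ‖α i - β k‖ ≤ c * ‖A - B‖)
    Finset.univ with hR
  have hS' : R.card < S.card := by
    convert! hS
  obtain ⟨T, hT⟩ : ∃ T, T = Rᶜ := ⟨_, rfl⟩
  have hcard : 3 < S.card + T.card := by
    have h3 : R.card + Rᶜ.card = 3 := by
      rw [Finset.card_add_card_compl, Fintype.card_fin]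
    rw [hT]
    omega
  have hT3 : T.card ≤ 3 := by simpa using Finset.card_le_univ T
  have hS3 : S.card ≤ 3 := by simpa using Finset.card_le_univ S
  have hfar : ∀ i ∈ S, ∀ k ∈ T, c * ‖A - B‖ < ‖α i - β k‖ := by
    intro i hi k hk
    rw [hT, Finset.mem_compl, hR, Finset.mem_filter] at hk
    by_contra h
    push Not at h
    exact hk ⟨Finset.mem_univ _, i, hi, h⟩
  have hSne : S.Nonempty := by
    rw [← Finset.card_pos]
    omega
  have hTne : T.Nonempty := by
    rw [← Finset.card_pos]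
    omega
  obtain ⟨p, hp, hmin⟩ := Finset.exists_min_image (S ×ˢ T) (fun p => ‖α p.1 - β p.2‖)
    (hSne.product hTne)
  rw [Finset.mem_product] at hp
  set m := ‖α p.1 - β p.2‖ with hm
  have hpos : c * ‖A - B‖ < m := hfar _ hp.1 _ hp.2
  have hm0 : 0 < m := lt_of_le_of_lt (by positivity) hpos
  have hmin' : ∀ i ∈ S, ∀ k ∈ T, m ≤ ‖α i - β k‖ := fun i hi k hk =>
    hmin (i, k) (Finset.mem_product.mpr ⟨hi, hk⟩)
  have hno1 : ¬ m ≤ ‖A - B‖ := by
    intro h
    have : 1 * ‖A - B‖ ≤ c * ‖A - B‖ := by gcongr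
    linarith
  have cab : ∀ i k, (inner ℂ (a i) ((A - B) (b k))) = (α i - β k) * (inner ℂ (a i) (b k)) := by
    intro i k
    rw [sub_apply, inner_sub_right, hB, ← adjoint_inner_left, hA', inner_smul_left,
      inner_smul_right, Complex.conj_conj]
    ring
  have cba : ∀ i k, (inner ℂ (b k) ((A - B) (a i))) = (α i - β k) * (inner ℂ (b k) (a i)) := by
    intro i k
    rw [sub_apply, inner_sub_right, hA, ← adjoint_inner_left B, hB', inner_smul_left,
      inner_smul_right, Complex.conj_conj]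
    ring
  by_cases hS4 : S.card = 3
  · obtain ⟨k, hk⟩ := hTne
    have hSu : S = Finset.univ := (Finset.card_eq_iff_eq_univ S).mp (by simpa using hS4)
    exact hno1 (le_of_all a (A - B) (b k) (b.norm_eq_one k) (fun i => α i - β k)
      (fun i => cab i k) hm0.le (fun i => hmin' i (by rw [hSu]; exact Finset.mem_univ _) k hk))
  by_cases hT4 : T.card = 3
  · obtain ⟨i, hi⟩ := hSne
    have hTu : T = Finset.univ := (Finset.card_eq_iff_eq_univ T).mp (by simpa using hT4)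
    exact hno1 (le_of_all b (A - B) (a i) (a.norm_eq_one i) (fun k => α i - β k)
      (fun k => cba i k) hm0.le (fun k => hmin' i hi k (by rw [hTu]; exact Finset.mem_univ _)))
  have hS2 : S.card = 2 := by omega
  have hT2 : T.card = 2 := by omega
  obtain ⟨x, hx, hxa, hxb⟩ := exists_common a b S T (by omega)
  obtain ⟨i, j, hij, hSe⟩ := Finset.card_eq_two.mp hS2
  obtain ⟨k, l, hkl, hTe⟩ := Finset.card_eq_two.mp hT2
  have hi : i ∈ S := by rw [hSe]; simp
  have hj : j ∈ S := by rw [hSe]; simp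
  have hk : k ∈ T := by rw [hTe]; simp
  have hl : l ∈ T := by rw [hTe]; simp
  have h := two_two A B (a.norm_eq_one i) (a.norm_eq_one j)
    (a.inner_eq_zero hij) (b.norm_eq_one k) (b.norm_eq_one l)
    (b.inner_eq_zero hkl) hx (expand a x hij hSe hxa) (expand b x hkl hTe hxb)
    (hA i) (hA j) (hA' i) (hA' j) (hB k) (hB l) (hB' k) (hB' l) hm0
    (hmin' i hi k hk) (hmin' i hi l hl) (hmin' j hj k hk) (hmin' j hj l hl)
  have h3 : (c * ‖A - B‖) ^ 2 < m ^ 2 := pow_lt_pow_left₀ hpos (by positivity) (by norm_num)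
  rw [mul_pow, hc2] at h3
  linarith

end SpecVar.CThree
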